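import Pool.Agent.Lib.MP_d90615_h62.KLim

/-!
The limit of the Rayleigh inequality in terms of the connections of the terminals.
-/

set_option autoImplicit false

namespace Pool.Agent.Lib.MP_d90615_h62.KT

open Matrix Finset Pool.Agent.Lib.MP_d90615_co
open scoped Classical

variable {V E : Type*}

/-- the elements of `U` lie in different components -/
def Sep (ends : E → Sym2 V) (F : Finset E) (U : Finset V) : Prop :=
  ∀ i ∈ U, ∀ j ∈ U, i ≠ j → ¬ Conn ends F i j

/-- `i` and `j` are joined, and there is no other pair of joined elements of `U` -/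
def Pair (ends : E → Sym2 V) (F : Finset E) (U : Finset V) (i j : V) : Prop :=
  i ≠ j ∧ Conn ends F i j ∧ ∀ k ∈ U, ∀ l ∈ U, k ≠ l → Conn ends F k l →
    (k = i ∧ l = j) ∨ (k = j ∧ l = i)

/-- `v` is not joined to an element of `U` -/
def Free (ends : E → Sym2 V) (F : Finset E) (U : Finset V) (v : V) : Prop :=
  ∀ i ∈ U, ¬ Conn ends F v i

variable {ends : E → Sym2 V} {F : Finset E} {U : Finset V} {v : V}

lemma nn_cl_eq_zero : nn ends F U (cl ends F v) = 0 ↔ Free ends F U v := by
  rw [nn, Finset.card_eq_zero, Finset.filter_eq_empty_iff]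
  constructor
  · intro h i hi hc
    exact h hi (cl_eq.2 hc.symm)
  · intro h i hi hc
    exact h i hi (cl_eq.1 hc).symm

lemma nn_le_one (h : Sep ends F U) (C : Quotient (comp ends F)) : nn ends F U C ≤ 1 := by
  rw [nn, Finset.card_le_one]
  intro a ha b hb
  rw [Finset.mem_filter] at ha hb
  by_contra hab
  exact h a ha.1 b hb.1 hab (cl_eq.1 (ha.2.trans hb.2.symm))

lemma two_le_nn {i j : V} (hi : i ∈ U) (hj : j ∈ U) (hij : i ≠ j) (h : Conn ends F i j) :
    2 ≤ nn ends F U (cl ends F i) := by
  have h1 : ({i, j} : Finset V) ⊆ U.filter (fun u => cl ends F u = cl ends F i) := by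
    intro w hw
    rw [Finset.mem_insert, Finset.mem_singleton] at hw
    rw [Finset.mem_filter]
    rcases hw with rfl | rfl
    · exact ⟨hi, rfl⟩
    · exact ⟨hj, cl_eq.2 h.symm⟩
  have h2 := Finset.card_le_card h1
  rwa [Finset.card_pair hij] at h2

lemma three_le_nn {i j k : V} (hi : i ∈ U) (hj : j ∈ U) (hk : k ∈ U) (hij : i ≠ j) (hik : i ≠ k)
    (hjk : j ≠ k) (h : Conn ends F i j) (h' : Conn ends F i k) :
    3 ≤ nn ends F U (cl ends F i) := by
  have h1 : ({i, j, k} : Finset V) ⊆ U.filter (fun u => cl ends F u = cl ends F i) := by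
    intro w hw
    rw [Finset.mem_insert, Finset.mem_insert, Finset.mem_singleton] at hw
    rw [Finset.mem_filter]
    rcases hw with rfl | rfl | rfl
    · exact ⟨hi, rfl⟩
    · exact ⟨hj, cl_eq.2 h.symm⟩
    · exact ⟨hk, cl_eq.2 h'.symm⟩
  have h2 := Finset.card_le_card h1
  rwa [Finset.card_eq_three.2 ⟨i, j, k, hij, hik, hjk, rfl⟩] at h2

/-- the factor of the component of `v` -/
noncomputable def kk (ends : E → Sym2 V) (F : Finset E) (U : Finset V) (v : V) (δ : ℝ) : ℝ :=
  if Free ends F U v then 1 + δ else 1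

lemma hl_le_one {δ : ℝ} {C : Quotient (comp ends F)} (h : nn ends F U C ≤ 1) :
    hl ends F U v δ C = if C = cl ends F v then kk ends F U v δ else 1 := by
  unfold hl dv kk
  by_cases h1 : C = cl ends F v
  · subst h1
    rw [if_pos rfl, if_pos rfl]
    by_cases h2 : nn ends F U (cl ends F v) = 0
    · rw [if_pos h2, if_pos (nn_cl_eq_zero.1 h2), mul_one]
    · rw [if_neg h2, if_pos (by omega), if_neg (fun h3 => h2 (nn_cl_eq_zero.2 h3))]
  · rw [if_neg h1, if_neg (Ne.symm h1)]
    by_cases h2 : nn ends F U C = 0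
    · rw [if_pos h2]
      ring
    · rw [if_neg h2, if_pos (by omega)]

lemma hl_two {δ : ℝ} {C : Quotient (comp ends F)} (h : 2 ≤ nn ends F U C) :
    hl ends F U v δ C = 0 := by
  unfold hl
  rw [if_neg (by omega), if_neg (by omega)]

variable [Fintype V]

lemma prod_erase_hl {δ : ℝ} {C : Quotient (comp ends F)}
    (h : ∀ C', C' ≠ C → nn ends F U C' ≤ 1) :
    ∏ C' ∈ univ.erase C, hl ends F U v δ C' =
      if C = cl ends F v then 1 else kk ends F U v δ := by
  rw [Finset.prod_congr rfl (fun C' hC' => hl_le_one (v := v) (δ := δ)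
    (h C' (Finset.mem_erase.1 hC').1)), Finset.prod_ite_eq']
  by_cases h1 : C = cl ends F v
  · rw [if_pos h1, if_neg]
    rw [h1]
    exact Finset.notMem_erase _ _
  · rw [if_neg h1, if_pos]
    exact Finset.mem_erase.2 ⟨Ne.symm h1, Finset.mem_univ _⟩

lemma sum_xx (x : V → ℝ) : ∑ C, xx ends F x C = ∑ w, x w ^ 2 := by
  unfold xx cs
  rw [Finset.sum_comm]
  refine Finset.sum_congr rfl fun w _ => ?_
  rw [Finset.sum_ite_eq, if_pos (Finset.mem_univ _)]

lemma xx_cl {x : V → ℝ} (hx : ∀ w, w ∉ U → x w = 0) :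
    xx ends F x (cl ends F v) = ∑ i ∈ U, if Conn ends F v i then x i ^ 2 else 0 := by
  rw [xx, cs_support (U := U) (fun w hw => by rw [hx w hw]; ring), Finset.sum_filter]
  refine Finset.sum_congr rfl fun i _ => ?_
  by_cases h : Conn ends F v i
  · rw [if_pos h, if_pos (cl_eq.2 h.symm)]
  · rw [if_neg h, if_neg (fun h' => h (cl_eq.1 h').symm)]

lemma aL_eq (δ : ℝ) :
    aL ends U v δ F = if Sep ends F U then kk ends F U v δ else 0 := by
  unfold aL
  by_cases h : Sep ends F U
  · rw [if_pos h, Finset.prod_congr rfl (fun C _ => hl_le_one (v := v) (δ := δ) (nn_le_one h C)),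
      Finset.prod_ite_eq', if_pos (Finset.mem_univ _)]
  · rw [if_neg h]
    unfold Sep at h
    push Not at h
    obtain ⟨i, hi, j, hj, hij, hc⟩ := h
    exact Finset.prod_eq_zero (Finset.mem_univ (cl ends F i)) (hl_two (two_le_nn hi hj hij hc))

lemma gL_sep {x : V → ℝ} (hx : ∀ w, w ∉ U → x w = 0) (δ : ℝ) (h : Sep ends F U) :
    gL ends U v x δ F = kk ends F U v δ * ∑ w, x w ^ 2 +
      δ * ∑ i ∈ U, if Conn ends F v i then x i ^ 2 else 0 := by
  unfold gL
  have h1 : ∀ C, bl ends F U v x δ C * ∏ C' ∈ univ.erase C, hl ends F U v δ C' =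
      kk ends F U v δ * xx ends F x C +
        δ * (if C = cl ends F v then xx ends F x C else 0) := by
    intro C
    rw [prod_erase_hl (fun C' _ => nn_le_one h C')]
    by_cases h2 : nn ends F U C = 0
    · rw [xx_eq_of_zero hx h2, bl, if_pos h2]
      simp
    · have h3 : nn ends F U C = 1 := by
        have := nn_le_one h C
        omega
      rw [bl, if_neg h2, if_pos h3, dv]
      by_cases h4 : C = cl ends F v
      · subst h4
        rw [if_pos rfl, if_pos rfl, if_pos rfl, kk, if_neg (fun h5 => h2 (nn_cl_eq_zero.2 h5))]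
        ring
      · rw [if_neg h4, if_neg h4, if_neg (Ne.symm h4)]
        ring
  rw [Finset.sum_congr rfl (fun C _ => h1 C), Finset.sum_add_distrib, ← Finset.mul_sum, sum_xx,
    ← Finset.mul_sum, Finset.sum_ite_eq', if_pos (Finset.mem_univ _), xx_cl hx]

omit [Fintype V] in
lemma sum_pair {i j : V} (hi : i ∈ U) (hj : j ∈ U) (hij : i ≠ j) (g : V → V → ℝ) :
    ∑ k ∈ U, ∑ l ∈ U, (if (k = i ∧ l = j) ∨ (k = j ∧ l = i) then g k l else 0) =
      g i j + g j i := by
  have h1 : ∀ k l, (if (k = i ∧ l = j) ∨ (k = j ∧ l = i) then g k l else 0) =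
      (if k = i then (if l = j then g k l else 0) else 0) +
        (if k = j then (if l = i then g k l else 0) else 0) := by
    intro k l
    by_cases h2 : k = i
    · subst h2
      rw [if_pos rfl, if_neg hij]
      by_cases h3 : l = j
      · rw [if_pos (Or.inl ⟨rfl, h3⟩), if_pos h3, add_zero]
      · rw [if_neg, if_neg h3, add_zero]
        rintro (⟨_, h4⟩ | ⟨h4, _⟩)
        · exact h3 h4
        · exact hij h4
    · rw [if_neg h2, zero_add]
      by_cases h3 : k = j
      · rw [if_pos h3]
        by_cases h4 : l = i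
        · rw [if_pos h4, if_pos (Or.inr ⟨h3, h4⟩)]
        · rw [if_neg h4, if_neg]
          rintro (⟨h5, _⟩ | ⟨_, h5⟩)
          · exact h2 h5
          · exact h4 h5
      · rw [if_neg h3, if_neg]
        rintro (⟨h5, _⟩ | ⟨h5, _⟩)
        · exact h2 h5
        · exact h3 h5
  simp only [h1, Finset.sum_add_distrib]
  congr 1
  · rw [Finset.sum_eq_single i, Finset.sum_eq_single j]
    · rw [if_pos rfl, if_pos rfl]
    · intro l _ hl
      rw [if_pos rfl, if_neg hl]
    · intro h
      exact absurd hj h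
    · intro k _ hk
      refine Finset.sum_eq_zero fun l _ => ?_
      rw [if_neg hk]
    · intro h
      exact absurd hi h
  · rw [Finset.sum_eq_single j, Finset.sum_eq_single i]
    · rw [if_pos rfl, if_pos rfl]
    · intro l _ hl
      rw [if_pos rfl, if_neg hl]
    · intro h
      exact absurd hi h
    · intro k _ hk
      refine Finset.sum_eq_zero fun l _ => ?_
      rw [if_neg hk]
    · intro h
      exact absurd hj h

omit [Fintype V] in
lemma pair_iff {i j k l : V} (hk : k ∈ U) (hl : l ∈ U) (h : Pair ends F U i j) :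
    Pair ends F U k l ↔ (k = i ∧ l = j) ∨ (k = j ∧ l = i) := by
  constructor
  · rintro ⟨h1, h2, _⟩
    exact h.2.2 k hk l hl h1 h2
  · rintro (⟨rfl, rfl⟩ | ⟨rfl, rfl⟩)
    · exact h
    · exact ⟨h.1.symm, h.2.1.symm, fun a ha b hb hab hc => (h.2.2 a ha b hb hab hc).symm⟩

lemma gL_not_sep {x : V → ℝ} (hx : ∀ w, w ∉ U → x w = 0) (δ : ℝ) (h : ¬ Sep ends F U) :
    gL ends U v x δ F = kk ends F U v δ * (1 / 2 * ∑ i ∈ U, ∑ j ∈ U,
      if Pair ends F U i j then (x i - x j) ^ 2 else 0) := by
  unfold gL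
  by_cases hP : ∃ i ∈ U, ∃ j ∈ U, Pair ends F U i j
  · obtain ⟨i, hi, j, hj, hp⟩ := hP
    obtain ⟨hij, hc, hu⟩ := hp
    have h0 : U.filter (fun u => cl ends F u = cl ends F i) = {i, j} := by
      ext w
      rw [Finset.mem_filter, Finset.mem_insert, Finset.mem_singleton]
      constructor
      · rintro ⟨hw, hw'⟩
        by_cases hwi : w = i
        · exact Or.inl hwi
        · rcases hu w hw i hi hwi (cl_eq.1 hw') with ⟨h1, _⟩ | ⟨h1, _⟩
          · exact Or.inl h1
          · exact Or.inr h1
      · rintro (rfl | rfl)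
        · exact ⟨hi, rfl⟩
        · exact ⟨hj, cl_eq.2 hc.symm⟩
    have hn : nn ends F U (cl ends F i) = 2 := by
      rw [nn, h0, Finset.card_pair hij]
    have hn' : ∀ C', C' ≠ cl ends F i → nn ends F U C' ≤ 1 := by
      intro C' hC'
      rw [nn, Finset.card_le_one]
      intro a ha b hb
      rw [Finset.mem_filter] at ha hb
      by_contra hab
      rcases hu a ha.1 b hb.1 hab (cl_eq.1 (ha.2.trans hb.2.symm)) with ⟨h1, _⟩ | ⟨_, h1⟩
      · exact hC' (by rw [← ha.2, h1])
      · exact hC' (by rw [← hb.2, h1])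
    have hcs : ∀ y : V → ℝ, (∀ w, w ∉ U → y w = 0) → cs ends F y (cl ends F i) = y i + y j := by
      intro y hy
      rw [cs_support hy, h0, Finset.sum_pair hij]
    have hb : bl ends F U v x δ (cl ends F i) = (x i - x j) ^ 2 := by
      rw [bl, if_neg (by omega), if_neg (by omega), if_pos hn, hcs x hx, xx,
        hcs (fun w => x w ^ 2) (fun w hw => by rw [hx w hw]; ring)]
      ring
    rw [Finset.sum_eq_single (cl ends F i)]
    · rw [prod_erase_hl hn', hb]
      have h5 : ∀ k ∈ U, ∀ l ∈ U, (if Pair ends F U k l then (x k - x l) ^ 2 else 0) =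
          if (k = i ∧ l = j) ∨ (k = j ∧ l = i) then (x k - x l) ^ 2 else 0 := by
        intro k hk l hl
        simp only [pair_iff hk hl ⟨hij, hc, hu⟩]
      rw [Finset.sum_congr rfl (fun k hk => Finset.sum_congr rfl (fun l hl => h5 k hk l hl)),
        sum_pair hi hj hij (fun k l => (x k - x l) ^ 2)]
      by_cases h4 : cl ends F i = cl ends F v
      · rw [if_pos h4, kk, if_neg]
        · ring
        · intro h6
          exact h6 i hi (cl_eq.1 h4).symm
      · rw [if_neg h4]
        ring
    · intro C _ hC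
      rw [Finset.prod_eq_zero (Finset.mem_erase.2 ⟨Ne.symm hC, Finset.mem_univ (cl ends F i)⟩)
        (hl_two (le_of_eq hn.symm)), mul_zero]
    · intro h
      exact absurd (Finset.mem_univ _) h
  · push Not at hP
    have h6 : ∑ i ∈ U, ∑ j ∈ U, (if Pair ends F U i j then (x i - x j) ^ 2 else 0) = 0 :=
      Finset.sum_eq_zero fun i hi => Finset.sum_eq_zero fun j hj => if_neg (hP i hi j hj)
    rw [h6, mul_zero, mul_zero]
    unfold Sep at h
    push Not at h
    obtain ⟨i, hi, j, hj, hij, hc⟩ := h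
    have hp := hP i hi j hj
    unfold Pair at hp
    push Not at hp
    obtain ⟨k, hk, l, hl, hkl, hc', h7, h8⟩ := hp hij hc
    refine Finset.sum_eq_zero fun C _ => ?_
    by_cases h9 : C = cl ends F i
    · by_cases h10 : C = cl ends F k
      · have hik : Conn ends F i k := cl_eq.1 (h9.symm.trans h10)
        have h11 : 3 ≤ nn ends F U C := by
          rw [h9]
          by_cases h12 : k = i
          · exact three_le_nn hi hj hl hij (by rw [← h12]; exact hkl) (Ne.symm (h7 h12)) hc
              (hik.trans hc')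
          · by_cases h13 : k = j
            · exact three_le_nn hi hj hl hij (Ne.symm (h8 h13)) (by rw [← h13]; exact hkl) hc
                (hik.trans hc')
            · exact three_le_nn hi hj hk hij (Ne.symm h12) (Ne.symm h13) hc hik
        have h12 : bl ends F U v x δ C = 0 := by
          rw [bl, if_neg (by omega), if_neg (by omega), if_neg (by omega)]
        rw [h12, zero_mul]
      · rw [Finset.prod_eq_zero (Finset.mem_erase.2 ⟨Ne.symm h10, Finset.mem_univ (cl ends F k)⟩)
          (hl_two (two_le_nn hk hl hkl hc')), mul_zero]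
    · rw [Finset.prod_eq_zero (Finset.mem_erase.2 ⟨Ne.symm h9, Finset.mem_univ (cl ends F i)⟩)
          (hl_two (two_le_nn hi hj hij hc)), mul_zero]

end Pool.Agent.Lib.MP_d90615_h62.KT
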