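import Pool.Agent.Lib.MP_d90615_h62.KThmB

/-!
Contraction of an edge, loops.
-/

set_option autoImplicit false

namespace Pool.Agent.Lib.MP_d90615_h62.KT

open Matrix Finset Pool.Agent.Lib.MP_d90615_co
open scoped Classical

variable {V E : Type*}

lemma conn_congr {ends ends' : E → Sym2 V} {F : Finset E} (h : ∀ f ∈ F, ends f = ends' f)
    {i j : V} : Conn ends F i j ↔ Conn ends' F i j := by
  have key : ∀ {e1 e2 : E → Sym2 V}, (∀ f ∈ F, e1 f = e2 f) → Conn e1 F i j →
      Conn e2 F i j := by
    intro e1 e2 h12 hc
    induction hc with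
    | refl => exact Conn.refl _ _ _
    | tail _ hbc ih =>
      obtain ⟨f, hf, hs⟩ := hbc
      exact Relation.ReflTransGen.tail ih ⟨f, hf, by rw [← h12 f hf, hs]⟩
  exact ⟨key h, key fun f hf => (h f hf).symm⟩

lemma forest_congr {ends ends' : E → Sym2 V} {F : Finset E} (h : ∀ f ∈ F, ends f = ends' f) :
    Forest ends F ↔ Forest ends' F := by
  have key : ∀ {e1 e2 : E → Sym2 V}, (∀ f ∈ F, e1 f = e2 f) → Forest e1 F →
      Forest e2 F := by
    intro e1 e2 h12 hF e he u v huv hc
    refine hF e he u v (by rw [h12 e he, huv]) ?_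
    exact (conn_congr (fun f hf => h12 f (Finset.mem_of_mem_erase hf))).2 hc
  exact ⟨key h, key fun f hf => (h f hf).symm⟩

/-- the map identifying `v` with `c` -/
noncomputable def gl (c v : V) (w : V) : V := if w = v then c else w

/-- the graph in which `v` is identified with `c` -/
noncomputable def con (ends : E → Sym2 V) (c v : V) : E → Sym2 V :=
  fun f => (ends f).map (gl c v)

lemma gl_self (c v : V) : gl c v v = c := if_pos rfl

lemma gl_of_ne {c v w : V} (h : w ≠ v) : gl c v w = w := if_neg h

lemma gl_c (c v : V) : gl c v c = c := by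
  unfold gl
  split_ifs <;> rfl

lemma con_apply {ends : E → Sym2 V} {c v x y : V} {f : E} (h : ends f = s(x, y)) :
    con ends c v f = s(gl c v x, gl c v y) := by
  unfold con
  rw [h, Sym2.map_mk]

lemma conn_of_gl {ends : E → Sym2 V} {F : Finset E} {e : E} {c v : V} (he : ends e = s(c, v))
    {i j : V} (h : gl c v i = gl c v j) : Conn ends (insert e F) i j := by
  have h1 : Conn ends (insert e F) c v := Conn.single (Finset.mem_insert_self _ _) he
  unfold gl at h
  by_cases hi : i = v
  · rw [if_pos hi] at h
    by_cases hj : j = v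
    · rw [hi, hj]
      exact Conn.refl _ _ _
    · rw [if_neg hj] at h
      rw [hi, ← h]
      exact h1.symm
  · rw [if_neg hi] at h
    by_cases hj : j = v
    · rw [if_pos hj] at h
      rw [h, hj]
      exact h1
    · rw [if_neg hj] at h
      rw [h]
      exact Conn.refl _ _ _

lemma conn_con {ends : E → Sym2 V} {F : Finset E} {e : E} {c v : V} (he : ends e = s(c, v))
    {i j : V} : Conn (con ends c v) F (gl c v i) (gl c v j) ↔ Conn ends (insert e F) i j := by
  constructor
  · intro h
    have key : ∀ p q, Conn (con ends c v) F p q → ∀ i j, gl c v i = p → gl c v j = q →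
        Conn ends (insert e F) i j := by
      intro p q hpq
      induction hpq with
      | refl =>
        intro i j hi hj
        exact conn_of_gl he (hi.trans hj.symm)
      | @tail b q' _ hbc ih =>
        intro i j hi hj
        obtain ⟨f, hf, hs⟩ := hbc
        obtain ⟨x, y, hxy⟩ : ∃ x y, ends f = s(x, y) := by
          induction ends f using Sym2.ind with
          | _ x y => exact ⟨x, y, rfl⟩
        rw [con_apply hxy] at hs
        have hst : Conn ends (insert e F) x y :=
          Conn.single (Finset.mem_insert_of_mem hf) hxy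
        rcases Sym2.eq_iff.mp hs with ⟨h1, h2⟩ | ⟨h1, h2⟩
        · exact ((ih i x hi h1).trans hst).trans (conn_of_gl he (h2.trans hj.symm))
        · exact ((ih i y hi h2).trans hst.symm).trans (conn_of_gl he (h1.trans hj.symm))
    exact key _ _ h i j rfl rfl
  · intro h
    induction h with
    | refl => exact Conn.refl _ _ _
    | @tail a b _ hbc ih =>
      obtain ⟨f, hf, hs⟩ := hbc
      rcases Finset.mem_insert.1 hf with rfl | hf
      · rw [he] at hs
        have h1 : gl c v a = gl c v b := by
          rcases Sym2.eq_iff.mp hs with ⟨h1, h2⟩ | ⟨h1, h2⟩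
          · rw [← h1, ← h2, gl_c, gl_self]
          · rw [← h1, ← h2, gl_c, gl_self]
        rw [← h1]
        exact ih
      · exact ih.trans (Conn.single hf (con_apply hs))

lemma conn_empty {ends : E → Sym2 V} {i j : V} (h : Conn ends ∅ i j) : i = j := by
  induction h with
  | refl => rfl
  | tail _ hbc ih =>
    obtain ⟨f, hf, _⟩ := hbc
    exact absurd hf (Finset.notMem_empty f)

lemma forest_con {ends : E → Sym2 V} {e : E} {c v : V} (he : ends e = s(c, v)) (hcv : c ≠ v)
    (F : Finset E) (heF : e ∉ F) : Forest (con ends c v) F ↔ Forest ends (insert e F) := by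
  induction F using Finset.induction_on with
  | empty =>
    constructor
    · intro _
      rw [forest_insert he (Finset.notMem_empty e)]
      refine ⟨?_, fun h => hcv (conn_empty h)⟩
      intro f hf
      exact absurd hf (Finset.notMem_empty f)
    · intro _ f hf
      exact absurd hf (Finset.notMem_empty f)
  | insert f F' hf ih =>
    have hef : e ≠ f := fun h => heF (h ▸ Finset.mem_insert_self _ _)
    have heF' : e ∉ F' := fun h => heF (Finset.mem_insert_of_mem h)
    obtain ⟨x, y, hxy⟩ : ∃ x y, ends f = s(x, y) := by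
      induction ends f using Sym2.ind with
      | _ x y => exact ⟨x, y, rfl⟩
    have hfe : f ∉ insert e F' := by
      rw [Finset.mem_insert]
      rintro (h | h)
      · exact hef h.symm
      · exact hf h
    rw [forest_insert (con_apply hxy) hf, Finset.insert_comm, forest_insert hxy hfe,
      ih heF', conn_con he]

/-- deletion and contraction -/
lemma cnt_del_con {ends : E → Sym2 V} {S : Finset E} {e : E} {c v : V} (he : ends e = s(c, v))
    (hcv : c ≠ v) (heS : e ∉ S) {P P' : Finset E → Prop}
    (h : ∀ F, F ⊆ S → (P (insert e F) ↔ P' F)) :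
    cnt ends (insert e S) P = cnt ends S P + cnt (con ends c v) S P' := by
  rw [cnt_insert he heS]
  congr 1
  unfold cnt
  rw [Finset.sum_filter, Finset.sum_filter]
  refine Finset.sum_congr rfl fun F hF => ?_
  have hF' := Finset.mem_powerset.1 hF
  have heF : e ∉ F := fun h => heS (hF' h)
  have h1 := forest_insert he heF
  have h2 := forest_con he hcv F heF
  have h3 := h F hF'
  by_cases h4 : Forest (con ends c v) F
  · have h5 := h1.1 (h2.1 h4)
    rw [if_pos h4, if_pos h5.1]
    congr 1
    exact propext ⟨fun h6 => h3.1 h6.2, fun h6 => ⟨h5.2, h3.2 h6⟩⟩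
  · rw [if_neg h4]
    by_cases h5 : Forest ends F
    · rw [if_pos h5]
      refine ind_neg fun h6 => h4 (h2.2 (h1.2 ⟨h5, h6.1⟩))
    · rw [if_neg h5]

/-- forests have no loops -/
lemma cnt_noloop {ends ends' : E → Sym2 V} (S : Finset E)
    (hne : ∀ f, ¬ (ends f).IsDiag → ends f = ends' f) {P P' : Finset E → Prop}
    (h : ∀ F, F ⊆ S → (∀ f ∈ F, ends f = ends' f) → (P F ↔ P' F)) :
    cnt ends S P = cnt ends' (S.filter fun f => ¬ (ends f).IsDiag) P' := by
  unfold cnt
  rw [Finset.sum_filter, Finset.sum_filter]
  refine (Finset.sum_subset_zero_on_sdiff (Finset.powerset_mono.2 (Finset.filter_subset _ S))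
    (fun F hF => ?_) (fun F hF => ?_)).symm
  · rw [Finset.mem_sdiff, Finset.mem_powerset, Finset.mem_powerset] at hF
    have h1 : ∃ f ∈ F, (ends f).IsDiag := by
      by_contra hcon
      push Not at hcon
      exact hF.2 fun f hf => Finset.mem_filter.2 ⟨hF.1 hf, hcon f hf⟩
    obtain ⟨f, hf, hd⟩ := h1
    refine if_neg fun h2 => ?_
    obtain ⟨x, y, hxy⟩ : ∃ x y, ends f = s(x, y) := by
      induction ends f using Sym2.ind with
      | _ x y => exact ⟨x, y, rfl⟩
    rw [hxy, Sym2.mk_isDiag_iff] at hd
    subst hd
    exact h2 f hf x x hxy (Conn.refl _ _ _)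
  · rw [Finset.mem_powerset] at hF
    have h1 : ∀ f ∈ F, ends f = ends' f := fun f hf => hne f (Finset.mem_filter.1 (hF hf)).2
    have h2 := h F (hF.trans (Finset.filter_subset _ _)) h1
    have h3 := forest_congr h1
    by_cases h4 : Forest ends F
    · rw [if_pos h4, if_pos (h3.1 h4)]
      rw [propext h2]
    · rw [if_neg h4, if_neg (fun h5 => h4 (h3.2 h5))]

end Pool.Agent.Lib.MP_d90615_h62.KT
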