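import Pool.Agent.Lib.MP_d90615_co.Mg.G033

/-!
`det (1 + J_F (D + x xᵀ))` for a diagonal matrix `D`, in terms of the components of `F`.
-/

set_option autoImplicit false

namespace Pool.Agent.Lib.MP_d90615_h62.KT

open Matrix Finset Pool.Agent.Lib.MP_d90615_co
open scoped Classical

variable {V E : Type*}

/-- the components of `F` -/
def comp (ends : E → Sym2 V) (F : Finset E) : Setoid V where
  r := Conn ends F
  iseqv := ⟨Conn.refl ends F, Conn.symm, Conn.trans⟩

/-- the component of a vertex -/
def cl (ends : E → Sym2 V) (F : Finset E) (v : V) : Quotient (comp ends F) := Quotient.mk _ v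

lemma cl_eq {ends : E → Sym2 V} {F : Finset E} {v w : V} :
    cl ends F v = cl ends F w ↔ Conn ends F v w := Quotient.eq (r := comp ends F)

variable [Fintype V]

/-- the sum of `D` over a component -/
noncomputable def cs (ends : E → Sym2 V) (F : Finset E) (D : V → ℝ)
    (C : Quotient (comp ends F)) : ℝ := ∑ v, if cl ends F v = C then D v else 0

/-- the incidence matrix of vertices and components -/
noncomputable def BB (ends : E → Sym2 V) (F : Finset E) : Matrix V (Quotient (comp ends F)) ℝ :=
  Matrix.of fun v C => if cl ends F v = C then 1 else 0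

omit [Fintype V] in
lemma BB_apply (ends : E → Sym2 V) (F : Finset E) (v : V) (C : Quotient (comp ends F)) :
    BB ends F v C = if cl ends F v = C then 1 else 0 := rfl

lemma JR_eq_BB (ends : E → Sym2 V) (F : Finset E) : JR ends F = BB ends F * (BB ends F)ᵀ := by
  ext v w
  rw [JR_apply, Matrix.mul_apply]
  simp only [Matrix.transpose_apply, BB_apply]
  rw [Finset.sum_eq_single (cl ends F v)]
  · by_cases h : Conn ends F v w
    · rw [if_pos h, if_pos rfl, if_pos (cl_eq.2 h.symm), one_mul]
    · rw [if_neg h, if_neg (fun h' => h (cl_eq.1 h').symm), mul_zero]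
  · intro C _ hC
    rw [if_neg (Ne.symm hC), zero_mul]
  · intro h
    exact absurd (Finset.mem_univ _) h

lemma BB_conj (ends : E → Sym2 V) (F : Finset E) (D x : V → ℝ) :
    (BB ends F)ᵀ * (diagonal D + vecMulVec x x) * BB ends F =
      diagonal (cs ends F D) + vecMulVec (cs ends F x) (cs ends F x) := by
  rw [Matrix.mul_add, Matrix.add_mul]
  congr 1
  · ext C C'
    rw [Matrix.mul_apply]
    simp only [Matrix.mul_diagonal, Matrix.transpose_apply, BB_apply]
    by_cases h : C = C'
    · subst h
      rw [Matrix.diagonal_apply_eq, cs]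
      refine Finset.sum_congr rfl fun v _ => ?_
      by_cases hv : cl ends F v = C
      · rw [if_pos hv, if_pos hv]
        ring
      · rw [if_neg hv, if_neg hv]
        ring
    · rw [Matrix.diagonal_apply_ne _ h]
      refine Finset.sum_eq_zero fun v _ => ?_
      by_cases hv : cl ends F v = C
      · rw [if_neg (fun h' => h (hv.symm.trans h')), mul_zero]
      · rw [if_neg hv, zero_mul, zero_mul]
  · rw [mul_vecMulVec, vecMulVec_mul]
    congr 1
    · ext C
      simp only [Matrix.mulVec, dotProduct, Matrix.transpose_apply, BB_apply, cs]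
      refine Finset.sum_congr rfl fun v _ => ?_
      split_ifs <;> simp
    · ext C
      simp only [Matrix.vecMul, dotProduct, BB_apply, cs]
      refine Finset.sum_congr rfl fun v _ => ?_
      split_ifs <;> simp

lemma det_diag_rank_one {n : Type*} [Fintype n] [DecidableEq n] (p y : n → ℝ) (hp : ∀ i, p i ≠ 0) :
    (diagonal p + vecMulVec y y).det =
      ∏ i, p i + ∑ i, y i ^ 2 * ∏ j ∈ univ.erase i, p j := by
  have h1 : diagonal p + vecMulVec y y =
      diagonal p * (1 + vecMulVec (fun i => y i / p i) y + vecMulVec (0 : n → ℝ) 0) := by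
    ext i j
    simp only [Matrix.add_apply, Matrix.diagonal_mul, vecMulVec_apply, Pi.zero_apply, mul_zero,
      add_zero, Matrix.one_apply, Matrix.diagonal_apply]
    by_cases h : i = j
    · subst h
      rw [if_pos rfl, if_pos rfl]
      field_simp [hp i]
    · rw [if_neg h, if_neg h]
      field_simp [hp i]
      ring
  rw [h1, Matrix.det_mul, Matrix.det_diagonal, det_one_rank_two]
  simp only [dotProduct, Pi.zero_apply, mul_zero, zero_mul, Finset.sum_const_zero, add_zero,
    mul_one, sub_zero]
  rw [mul_add, mul_one, Finset.mul_sum]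
  congr 1
  refine Finset.sum_congr rfl fun i _ => ?_
  rw [← Finset.mul_prod_erase univ p (Finset.mem_univ i)]
  field_simp [hp i]

lemma det_term (ends : E → Sym2 V) (F : Finset E) (D x : V → ℝ)
    (hD : ∀ C, 1 + cs ends F D C ≠ 0) :
    (1 + JR ends F * (diagonal D + vecMulVec x x)).det =
      ∏ C, (1 + cs ends F D C) +
        ∑ C, cs ends F x C ^ 2 * ∏ C' ∈ univ.erase C, (1 + cs ends F D C') := by
  rw [JR_eq_BB, Matrix.mul_assoc, Matrix.det_one_add_mul_comm, BB_conj,
    ← det_diag_rank_one (fun C => 1 + cs ends F D C) (cs ends F x) hD]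
  congr 1
  rw [← add_assoc]
  congr 1
  ext C C'
  simp only [Matrix.add_apply, Matrix.one_apply, Matrix.diagonal_apply]
  split_ifs <;> simp

lemma det_term_zero (ends : E → Sym2 V) (F : Finset E) (D : V → ℝ)
    (hD : ∀ C, 1 + cs ends F D C ≠ 0) :
    (1 + JR ends F * diagonal D).det = ∏ C, (1 + cs ends F D C) := by
  have h := det_term ends F D 0 hD
  have h0 : vecMulVec (0 : V → ℝ) (0 : V → ℝ) = 0 := by simp
  have h1 : ∀ C, cs ends F (0 : V → ℝ) C = 0 := fun C => by simp [cs]
  rw [h0, add_zero] at h
  rw [h]
  simp [h1]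

end Pool.Agent.Lib.MP_d90615_h62.KT
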