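import Pool.Agent.Lib.MP_d90615_h62.KDet

/-!
The limit of the Rayleigh inequality for large masses at the terminals.
-/

set_option autoImplicit false

namespace Pool.Agent.Lib.MP_d90615_h62.KT

open Matrix Finset Filter Topology Pool.Agent.Lib.MP_d90615_co
open scoped Classical

variable {V E : Type*}

section Defs

variable (ends : E → Sym2 V) (F : Finset E)

/-- the number of terminals in a component -/
noncomputable def nn (U : Finset V) (C : Quotient (comp ends F)) : ℕ :=
  (U.filter (fun u => cl ends F u = C)).card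

/-- the indicator of the component of `v` -/
noncomputable def dv (v : V) (C : Quotient (comp ends F)) : ℝ := if cl ends F v = C then 1 else 0

/-- the factor of a component -/
noncomputable def pp (U : Finset V) (v : V) (δ s : ℝ) (C : Quotient (comp ends F)) : ℝ :=
  1 + (s * nn ends F U C + δ * dv ends F v C)

/-- its limit -/
noncomputable def hl (U : Finset V) (v : V) (δ : ℝ) (C : Quotient (comp ends F)) : ℝ :=
  if nn ends F U C = 0 then 1 + δ * dv ends F v C else if nn ends F U C = 1 then 1 else 0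

variable [Fintype V]

/-- the sum of the squares over a component -/
noncomputable def xx (x : V → ℝ) (C : Quotient (comp ends F)) : ℝ :=
  cs ends F (fun w => x w ^ 2) C

/-- the limit of the other factor -/
noncomputable def bl (U : Finset V) (v : V) (x : V → ℝ) (δ : ℝ) (C : Quotient (comp ends F)) :
    ℝ :=
  if nn ends F U C = 0 then 0 else
    if nn ends F U C = 1 then xx ends F x C * (1 + δ * dv ends F v C) else
      if nn ends F U C = 2 then 2 * xx ends F x C - cs ends F x C ^ 2 else 0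

/-- the masses -/
noncomputable def ms (U : Finset V) (v : V) (δ s : ℝ) : V → ℝ :=
  fun w => s * (if w ∈ U then 1 else 0) + δ * (Pi.single v (1 : ℝ) : V → ℝ) w

end Defs

variable {ends : E → Sym2 V} {F : Finset E}

lemma sum_nn [Fintype V] (U : Finset V) : ∑ C, nn ends F U C = U.card :=
  (Finset.card_eq_sum_card_fiberwise (f := cl ends F) (t := univ)
    (fun _ _ => Finset.mem_coe.2 (Finset.mem_univ _))).symm

lemma cs_support [Fintype V] {U : Finset V} {x : V → ℝ} (hx : ∀ w, w ∉ U → x w = 0)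
    (C : Quotient (comp ends F)) :
    cs ends F x C = ∑ u ∈ U.filter (fun u => cl ends F u = C), x u := by
  rw [cs, Finset.sum_filter]
  refine (Finset.sum_subset (Finset.subset_univ U) (fun w _ hw => ?_)).symm
  rw [hx w hw]
  simp

lemma cs_ms [Fintype V] (U : Finset V) (v : V) (δ s : ℝ) (C : Quotient (comp ends F)) :
    1 + cs ends F (ms U v δ s) C = pp ends F U v δ s C := by
  have h1 : cs ends F (ms U v δ s) C = s * nn ends F U C + δ * dv ends F v C := by
    have h2 : ∀ w, (if cl ends F w = C then ms U v δ s w else 0) =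
        s * (if w ∈ U then (if cl ends F w = C then 1 else 0) else 0) +
          δ * (if w = v then (if cl ends F v = C then 1 else 0) else 0) := by
      intro w
      unfold ms
      by_cases h3 : w = v
      · subst h3
        rw [Pi.single_eq_same, if_pos rfl]
        split_ifs <;> simp
      · rw [Pi.single_eq_of_ne h3, if_neg h3]
        split_ifs <;> simp
    rw [cs, Finset.sum_congr rfl (fun w _ => h2 w), Finset.sum_add_distrib, ← Finset.mul_sum,
      ← Finset.mul_sum, ← Finset.sum_filter, Finset.filter_mem_eq_inter, Finset.univ_inter,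
      ← Finset.sum_filter, Finset.sum_const, nsmul_eq_mul, mul_one, Finset.sum_ite_eq',
      if_pos (Finset.mem_univ v)]
    rfl
  rw [h1, pp]

lemma pp_pos (U : Finset V) (v : V) {δ s : ℝ} (hδ : 0 ≤ δ) (hs : 0 ≤ s)
    (C : Quotient (comp ends F)) : 0 < pp ends F U v δ s C := by
  have h1 : (0 : ℝ) ≤ nn ends F U C := Nat.cast_nonneg _
  have h2 : 0 ≤ dv ends F v C := by
    unfold dv
    split_ifs <;> norm_num
  have h3 := mul_nonneg hs h1
  have h4 := mul_nonneg hδ h2
  unfold pp
  linarith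

lemma xx_eq_of_one [Fintype V] {U : Finset V} {x : V → ℝ} (hx : ∀ w, w ∉ U → x w = 0)
    {C : Quotient (comp ends F)} (h : nn ends F U C = 1) :
    xx ends F x C = cs ends F x C ^ 2 := by
  obtain ⟨u, hu⟩ := Finset.card_eq_one.1 h
  have hx' : ∀ w, w ∉ U → x w ^ 2 = 0 := fun w hw => by rw [hx w hw]; ring
  rw [xx, cs_support hx', cs_support hx, hu, Finset.sum_singleton, Finset.sum_singleton]

lemma cs_eq_of_zero [Fintype V] {U : Finset V} {x : V → ℝ} (hx : ∀ w, w ∉ U → x w = 0)
    {C : Quotient (comp ends F)} (h : nn ends F U C = 0) : cs ends F x C = 0 := by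
  rw [cs_support hx, Finset.card_eq_zero.1 h, Finset.sum_empty]

lemma xx_eq_of_zero [Fintype V] {U : Finset V} {x : V → ℝ} (hx : ∀ w, w ∉ U → x w = 0)
    {C : Quotient (comp ends F)} (h : nn ends F U C = 0) : xx ends F x C = 0 :=
  cs_eq_of_zero (fun w hw => by rw [hx w hw]; ring) h

lemma inv_pow_tendsto (m : ℕ) : Tendsto (fun s : ℝ => (s⁻¹) ^ (m + 1)) atTop (𝓝 0) := by
  have h := (tendsto_inv_atTop_zero (𝕜 := ℝ)).pow (m + 1)
  rwa [zero_pow (Nat.succ_ne_zero m)] at h

lemma tend_h (U : Finset V) (v : V) (δ : ℝ) (C : Quotient (comp ends F)) :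
    Tendsto (fun s : ℝ => pp ends F U v δ s C / s ^ nn ends F U C) atTop
      (𝓝 (hl ends F U v δ C)) := by
  unfold pp hl
  obtain ⟨N, hN⟩ : ∃ N, N = nn ends F U C := ⟨_, rfl⟩
  obtain ⟨d, hd⟩ : ∃ d, d = δ * dv ends F v C := ⟨_, rfl⟩
  rw [← hN, ← hd]
  rcases N with _ | _ | m
  · simp
  · have h1 : Tendsto (fun s : ℝ => (1 + d) * (s⁻¹) ^ (0 + 1) + 1) atTop (𝓝 ((1 + d) * 0 + 1)) :=
      ((inv_pow_tendsto 0).const_mul (1 + d)).add_const 1
    have h2 : (if (0 + 1 : ℕ) = 0 then 1 + d else if (0 + 1 : ℕ) = 1 then 1 else 0) =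
        (1 + d) * 0 + 1 := by
      norm_num
    rw [h2]
    refine h1.congr' ?_
    filter_upwards [eventually_gt_atTop (0 : ℝ)] with s hs
    have hs' : s ≠ 0 := hs.ne'
    push_cast
    field_simp
    ring
  · have h1 : Tendsto (fun s : ℝ => (1 + d) * (s⁻¹) ^ (m + 1 + 1) + (m + 2 : ℝ) * (s⁻¹) ^ (m + 1))
        atTop (𝓝 ((1 + d) * 0 + (m + 2 : ℝ) * 0)) :=
      ((inv_pow_tendsto (m + 1)).const_mul (1 + d)).add
        ((inv_pow_tendsto m).const_mul (m + 2 : ℝ))
    have h2 : (if (m + 1 + 1 : ℕ) = 0 then 1 + d else if (m + 1 + 1 : ℕ) = 1 then 1 else 0) =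
        (1 + d) * 0 + (m + 2 : ℝ) * 0 := by
      rw [if_neg (by omega), if_neg (by omega)]
      ring
    rw [h2]
    refine h1.congr' ?_
    filter_upwards [eventually_gt_atTop (0 : ℝ)] with s hs
    have hs' : s ≠ 0 := hs.ne'
    push_cast
    rw [inv_pow, inv_pow]
    field_simp
    ring

lemma tend_b [Fintype V] {U : Finset V} {x : V → ℝ} (hx : ∀ w, w ∉ U → x w = 0) (v : V) (δ : ℝ)
    (C : Quotient (comp ends F)) :
    Tendsto (fun s : ℝ => (s * xx ends F x C * pp ends F U v δ s C - s ^ 2 * cs ends F x C ^ 2) /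
      s ^ nn ends F U C) atTop (𝓝 (bl ends F U v x δ C)) := by
  have e0 := fun h => cs_eq_of_zero (ends := ends) (F := F) hx (C := C) h
  have e0' := fun h => xx_eq_of_zero (ends := ends) (F := F) hx (C := C) h
  have e1 := fun h => xx_eq_of_one (ends := ends) (F := F) hx (C := C) h
  unfold pp bl
  obtain ⟨N, hN⟩ : ∃ N, N = nn ends F U C := ⟨_, rfl⟩
  obtain ⟨d, hd⟩ : ∃ d, d = δ * dv ends F v C := ⟨_, rfl⟩
  obtain ⟨a, ha⟩ : ∃ a, a = xx ends F x C := ⟨_, rfl⟩
  obtain ⟨b, hb⟩ : ∃ b, b = cs ends F x C := ⟨_, rfl⟩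
  rw [← hN, ← hb] at e0
  rw [← hN, ← ha] at e0'
  rw [← hN, ← ha, ← hb] at e1
  rw [← hN, ← hd, ← ha, ← hb]
  rcases N with _ | _ | _ | m
  · rw [e0 rfl, e0' rfl]
    simp
  · rw [e1 rfl]
    have h2 : (if (0 + 1 : ℕ) = 0 then 0 else if (0 + 1 : ℕ) = 1 then b ^ 2 * (1 + d) else
        if (0 + 1 : ℕ) = 2 then 2 * b ^ 2 - b ^ 2 else 0) = b ^ 2 * (1 + d) := by
      norm_num
    rw [h2]
    refine (tendsto_const_nhds (x := b ^ 2 * (1 + d))).congr' ?_
    filter_upwards [eventually_gt_atTop (0 : ℝ)] with s hs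
    have hs' : s ≠ 0 := hs.ne'
    push_cast
    field_simp
    ring
  · have h1 : Tendsto (fun s : ℝ => a * (1 + d) * (s⁻¹) ^ (0 + 1) + (2 * a - b ^ 2)) atTop
        (𝓝 (a * (1 + d) * 0 + (2 * a - b ^ 2))) :=
      ((inv_pow_tendsto 0).const_mul (a * (1 + d))).add_const _
    have h2 : (if (0 + 1 + 1 : ℕ) = 0 then 0 else if (0 + 1 + 1 : ℕ) = 1 then a * (1 + d) else
        if (0 + 1 + 1 : ℕ) = 2 then 2 * a - b ^ 2 else 0) =
        a * (1 + d) * 0 + (2 * a - b ^ 2) := by
      norm_num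
    rw [h2]
    refine h1.congr' ?_
    filter_upwards [eventually_gt_atTop (0 : ℝ)] with s hs
    have hs' : s ≠ 0 := hs.ne'
    push_cast
    field_simp
    ring
  · have h1 : Tendsto (fun s : ℝ => a * (1 + d) * (s⁻¹) ^ (m + 1 + 1) +
        ((m + 3 : ℝ) * a - b ^ 2) * (s⁻¹) ^ (m + 1)) atTop
        (𝓝 (a * (1 + d) * 0 + ((m + 3 : ℝ) * a - b ^ 2) * 0)) :=
      ((inv_pow_tendsto (m + 1)).const_mul (a * (1 + d))).add ((inv_pow_tendsto m).const_mul _)
    have h2 : (if (m + 1 + 1 + 1 : ℕ) = 0 then 0 else if (m + 1 + 1 + 1 : ℕ) = 1 then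
        a * (1 + d) else if (m + 1 + 1 + 1 : ℕ) = 2 then 2 * a - b ^ 2 else 0) =
        a * (1 + d) * 0 + ((m + 3 : ℝ) * a - b ^ 2) * 0 := by
      rw [if_neg (by omega), if_neg (by omega), if_neg (by omega)]
      ring
    rw [h2]
    refine h1.congr' ?_
    filter_upwards [eventually_gt_atTop (0 : ℝ)] with s hs
    have hs' : s ≠ 0 := hs.ne'
    push_cast
    rw [inv_pow, inv_pow]
    field_simp
    ring

/-- the partition function of a forest -/
noncomputable def aF [Fintype V] (ends : E → Sym2 V) (U : Finset V) (v : V) (δ s : ℝ)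
    (F : Finset E) : ℝ := ∏ C, pp ends F U v δ s C

/-- the derivative in the direction of `x xᵀ` -/
noncomputable def nF [Fintype V] (ends : E → Sym2 V) (U : Finset V) (v : V) (x : V → ℝ) (δ s : ℝ)
    (F : Finset E) : ℝ :=
  ∑ C, cs ends F x C ^ 2 * ∏ C' ∈ univ.erase C, pp ends F U v δ s C'

lemma tend_a [Fintype V] (U : Finset V) (v : V) (δ : ℝ) :
    Tendsto (fun s : ℝ => aF ends U v δ s F / s ^ U.card) atTop
      (𝓝 (∏ C, hl ends F U v δ C)) := by
  refine (tendsto_finsetProd univ (fun C _ => tend_h (ends := ends) (F := F) U v δ C)).congr ?_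
  intro s
  rw [Finset.prod_div_distrib, Finset.prod_pow_eq_pow_sum, sum_nn]
  rfl

lemma tend_n [Fintype V] {U : Finset V} {x : V → ℝ} (hx : ∀ w, w ∉ U → x w = 0) (v : V)
    (δ : ℝ) :
    Tendsto (fun s : ℝ => (s * (∑ w, x w ^ 2) * aF ends U v δ s F -
      s ^ 2 * nF ends U v x δ s F) / s ^ U.card) atTop
      (𝓝 (∑ C, bl ends F U v x δ C * ∏ C' ∈ univ.erase C, hl ends F U v δ C')) := by
  refine (tendsto_finsetSum univ (fun C _ => (tend_b (ends := ends) (F := F) hx v δ C).mul
    (tendsto_finsetProd (univ.erase C) (fun C' _ => tend_h (ends := ends) (F := F) U v δ C')))).congr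
    ?_
  intro s
  have h1 : ∑ w, x w ^ 2 = ∑ C, xx ends F x C := by
    unfold xx cs
    rw [Finset.sum_comm]
    refine Finset.sum_congr rfl fun w _ => ?_
    rw [Finset.sum_ite_eq, if_pos (Finset.mem_univ _)]
  have h2 : ∀ C, s ^ U.card = s ^ nn ends F U C * ∏ C' ∈ univ.erase C, s ^ nn ends F U C' := by
    intro C
    rw [Finset.mul_prod_erase univ (fun C => s ^ nn ends F U C) (Finset.mem_univ C),
      Finset.prod_pow_eq_pow_sum, sum_nn]
  have h3 : s * (∑ w, x w ^ 2) * aF ends U v δ s F - s ^ 2 * nF ends U v x δ s F =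
      ∑ C, (s * xx ends F x C * pp ends F U v δ s C - s ^ 2 * cs ends F x C ^ 2) *
        ∏ C' ∈ univ.erase C, pp ends F U v δ s C' := by
    rw [h1, aF, nF, Finset.mul_sum, Finset.sum_mul, Finset.mul_sum, ← Finset.sum_sub_distrib]
    refine Finset.sum_congr rfl fun C _ => ?_
    rw [← Finset.mul_prod_erase univ (fun C => pp ends F U v δ s C) (Finset.mem_univ C)]
    ring
  rw [h3, Finset.sum_div]
  refine Finset.sum_congr rfl fun C _ => ?_
  rw [h2 C, Finset.prod_div_distrib]
  exact div_mul_div_comm _ _ _ _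

/-- the limit of the partition function -/
noncomputable def aL [Fintype V] (ends : E → Sym2 V) (U : Finset V) (v : V) (δ : ℝ)
    (F : Finset E) : ℝ := ∏ C, hl ends F U v δ C

/-- the limit of the second term -/
noncomputable def gL [Fintype V] (ends : E → Sym2 V) (U : Finset V) (v : V) (x : V → ℝ) (δ : ℝ)
    (F : Finset E) : ℝ := ∑ C, bl ends F U v x δ C * ∏ C' ∈ univ.erase C, hl ends F U v δ C'

lemma vec_single [Fintype V] (v : V) : vecMulVec (Pi.single v (1 : ℝ)) (Pi.single v (1 : ℝ)) =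
    (diagonal (Pi.single v (1 : ℝ)) : Matrix V V ℝ) := by
  ext i j
  rw [vecMulVec_apply, Matrix.diagonal_apply]
  by_cases h : i = j
  · subst h
    rw [if_pos rfl]
    by_cases h' : i = v
    · subst h'
      simp
    · rw [Pi.single_eq_of_ne h']
      simp
  · rw [if_neg h]
    by_cases h' : i = v
    · subst h'
      rw [Pi.single_eq_of_ne (Ne.symm h), mul_zero]
    · rw [Pi.single_eq_of_ne h', zero_mul]

/-- **The Rayleigh inequality in the limit of large masses at the terminals.** -/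
theorem limit_ineq [Fintype V] (ends : E → Sym2 V) (hloop : ∀ e, ¬ (ends e).IsDiag)
    (S : Finset E) {U : Finset V} {x : V → ℝ} (hx : ∀ w, w ∉ U → x w = 0) (v : V) :
    (∑ F ∈ S.powerset with Forest ends F, aL ends U v 1 F) *
      (∑ F ∈ S.powerset with Forest ends F, gL ends U v x 0 F) ≤
    (∑ F ∈ S.powerset with Forest ends F, aL ends U v 0 F) *
      (∑ F ∈ S.powerset with Forest ends F, gL ends U v x 1 F) := by
  have hR : ∀ δ s : ℝ, 0 ≤ δ → 0 ≤ s → R ends S (diagonal (ms U v δ s)) =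
      ∑ F ∈ S.powerset with Forest ends F, aF ends U v δ s F := by
    intro δ s hδ hs
    rw [R]
    refine Finset.sum_congr rfl fun F _ => ?_
    rw [det_term_zero ends F _ (fun C => by rw [cs_ms]; exact (pp_pos U v hδ hs C).ne')]
    exact Finset.prod_congr rfl fun C _ => cs_ms U v δ s C
  have hR' : ∀ δ s : ℝ, 0 ≤ δ → 0 ≤ s → R ends S (diagonal (ms U v δ s) + vecMulVec x x) =
      (∑ F ∈ S.powerset with Forest ends F, aF ends U v δ s F) +
        ∑ F ∈ S.powerset with Forest ends F, nF ends U v x δ s F := by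
    intro δ s hδ hs
    rw [R, ← Finset.sum_add_distrib]
    refine Finset.sum_congr rfl fun F _ => ?_
    rw [det_term ends F _ x (fun C => by rw [cs_ms]; exact (pp_pos U v hδ hs C).ne')]
    simp only [cs_ms]
    rfl
  have hray : ∀ s : ℝ, 0 ≤ s →
      (∑ F ∈ S.powerset with Forest ends F, aF ends U v 0 s F) *
        (∑ F ∈ S.powerset with Forest ends F, nF ends U v x 1 s F) ≤
      (∑ F ∈ S.powerset with Forest ends F, nF ends U v x 0 s F) *
        (∑ F ∈ S.powerset with Forest ends F, aF ends U v 1 s F) := by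
    intro s hs
    have h := rayleigh ends hloop S (diagonal (ms U v 0 s)) (Matrix.isSymm_diagonal _) x
      (Pi.single v 1)
    have h1 : (diagonal (ms U v 0 s) + vecMulVec (Pi.single v (1 : ℝ)) (Pi.single v (1 : ℝ)) :
        Matrix V V ℝ) = diagonal (ms U v 1 s) := by
      rw [vec_single, Matrix.diagonal_add]
      congr 1
      ext w
      unfold ms
      simp
    have h2 : (diagonal (ms U v 0 s) + vecMulVec x x +
        vecMulVec (Pi.single v (1 : ℝ)) (Pi.single v (1 : ℝ)) : Matrix V V ℝ) =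
        diagonal (ms U v 1 s) + vecMulVec x x := by
      rw [← h1]
      abel
    rw [h1, h2, hR 0 s le_rfl hs, hR 1 s zero_le_one hs, hR' 0 s le_rfl hs,
      hR' 1 s zero_le_one hs] at h
    nlinarith
  obtain ⟨k, hk⟩ : ∃ k, k = U.card := ⟨_, rfl⟩
  obtain ⟨X, hX⟩ : ∃ X, X = ∑ w, x w ^ 2 := ⟨_, rfl⟩
  have t1 : ∀ δ : ℝ, Tendsto (fun s : ℝ =>
      (∑ F ∈ S.powerset with Forest ends F, aF ends U v δ s F) / s ^ k) atTop
      (𝓝 (∑ F ∈ S.powerset with Forest ends F, aL ends U v δ F)) := by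
    intro δ
    refine (tendsto_finsetSum _ (fun F _ => tend_a (ends := ends) (F := F) U v δ)).congr ?_
    intro s
    rw [hk, Finset.sum_div]
  have t2 : ∀ δ : ℝ, Tendsto (fun s : ℝ =>
      (s * X * (∑ F ∈ S.powerset with Forest ends F, aF ends U v δ s F) -
        s ^ 2 * (∑ F ∈ S.powerset with Forest ends F, nF ends U v x δ s F)) / s ^ k) atTop
      (𝓝 (∑ F ∈ S.powerset with Forest ends F, gL ends U v x δ F)) := by
    intro δ
    refine (tendsto_finsetSum _ (fun F _ => tend_n (ends := ends) (F := F) hx v δ)).congr ?_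
    intro s
    rw [hk, hX, ← Finset.sum_div, Finset.sum_sub_distrib, ← Finset.mul_sum, ← Finset.mul_sum]
  refine le_of_tendsto_of_tendsto ((t1 1).mul (t2 0)) ((t1 0).mul (t2 1)) ?_
  filter_upwards [eventually_gt_atTop (0 : ℝ)] with s hs
  have h := hray s hs.le
  rw [div_mul_div_comm, div_mul_div_comm]
  refine div_le_div_of_nonneg_right ?_ (by positivity)
  have h3 := mul_le_mul_of_nonneg_left h (sq_nonneg s)
  nlinarith

end Pool.Agent.Lib.MP_d90615_h62.KT
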