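import Pool.Agent.Lib.MP_d90615_h62.KComb

/-!
Adding a terminal: the comparison of the response matrices.
-/

set_option autoImplicit false

namespace Pool.Agent.Lib.MP_d90615_h62.KT

open Matrix Finset Pool.Agent.Lib.MP_d90615_co
open scoped Classical

variable {V E : Type*}

/-- the indicator of a proposition -/
noncomputable def ind (p : Prop) : ℝ := if p then 1 else 0

lemma ind_pos {p : Prop} (h : p) : ind p = 1 := if_pos h
lemma ind_neg {p : Prop} (h : ¬ p) : ind p = 0 := if_neg h

lemma ind_nonneg (p : Prop) : 0 ≤ ind p := by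
  unfold ind
  split_ifs <;> norm_num

lemma ind_mul (p : Prop) (a : ℝ) : ind p * a = if p then a else 0 := by
  by_cases h : p
  · rw [ind_pos h, if_pos h, one_mul]
  · rw [ind_neg h, if_neg h, zero_mul]

/-- the number of forests with edges in `S` and the property `P` -/
noncomputable def cnt (ends : E → Sym2 V) (S : Finset E) (P : Finset E → Prop) : ℝ :=
  ∑ F ∈ S.powerset with Forest ends F, ind (P F)

/-- the form of the forests in which exactly one pair of terminals is joined -/
noncomputable def QQ (ends : E → Sym2 V) (S : Finset E) (U : Finset V) (P : Finset E → Prop)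
    (x : V → ℝ) : ℝ :=
  1 / 2 * ∑ i ∈ U, ∑ j ∈ U, cnt ends S (fun F => Pair ends F U i j ∧ P F) * (x i - x j) ^ 2

lemma cnt_congr {ends : E → Sym2 V} {S : Finset E} {P P' : Finset E → Prop}
    (h : ∀ F, F ⊆ S → Forest ends F → (P F ↔ P' F)) : cnt ends S P = cnt ends S P' := by
  unfold cnt
  refine Finset.sum_congr rfl fun F hF => ?_
  rw [Finset.mem_filter, Finset.mem_powerset] at hF
  rw [propext (h F hF.1 hF.2)]

lemma cnt_nonneg (ends : E → Sym2 V) (S : Finset E) (P : Finset E → Prop) :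
    0 ≤ cnt ends S P :=
  Finset.sum_nonneg fun _ _ => ind_nonneg _

lemma sum_aL [Fintype V] (ends : E → Sym2 V) (S : Finset E) (U : Finset V) (v : V) (δ : ℝ) :
    ∑ F ∈ S.powerset with Forest ends F, aL ends U v δ F =
      cnt ends S (fun F => Sep ends F U) +
        δ * cnt ends S (fun F => Sep ends F U ∧ Free ends F U v) := by
  unfold cnt
  rw [Finset.mul_sum, ← Finset.sum_add_distrib]
  refine Finset.sum_congr rfl fun F _ => ?_
  rw [aL_eq, kk]
  by_cases h1 : Sep ends F U
  · by_cases h2 : Free ends F U v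
    · rw [if_pos h1, if_pos h2, ind_pos h1, ind_pos ⟨h1, h2⟩, mul_one]
    · rw [if_pos h1, if_neg h2, ind_pos h1, ind_neg (fun h => h2 h.2), mul_zero, add_zero]
  · rw [if_neg h1, ind_neg h1, ind_neg (fun h => h1 h.1), mul_zero, add_zero]

lemma gL_eq [Fintype V] (ends : E → Sym2 V) (F : Finset E) (U : Finset V) (v : V) (δ : ℝ)
    {x : V → ℝ} (hx : ∀ w, w ∉ U → x w = 0) :
    gL ends U v x δ F =
      (ind (Sep ends F U) + δ * ind (Sep ends F U ∧ Free ends F U v)) * (∑ w, x w ^ 2) +
      δ * (∑ i ∈ U, ind (Sep ends F U ∧ Conn ends F v i) * x i ^ 2) +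
      ((1 / 2 * ∑ i ∈ U, ∑ j ∈ U, ind (Pair ends F U i j ∧ True) * (x i - x j) ^ 2) +
        δ * (1 / 2 * ∑ i ∈ U, ∑ j ∈ U, ind (Pair ends F U i j ∧ Free ends F U v) *
          (x i - x j) ^ 2)) := by
  by_cases h2 : Sep ends F U
  · have h3 : ∀ i ∈ U, ∀ j ∈ U, ¬ Pair ends F U i j := fun i hi j hj hp =>
      h2 i hi j hj hp.1 hp.2.1
    have h4 : ∀ P : Prop, ∑ i ∈ U, ∑ j ∈ U, ind (Pair ends F U i j ∧ P) *
        (x i - x j) ^ 2 = 0 := fun P =>
      Finset.sum_eq_zero fun i hi => Finset.sum_eq_zero fun j hj => by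
        rw [ind_neg (fun h => h3 i hi j hj h.1), zero_mul]
    rw [gL_sep hx δ h2, h4, h4, kk]
    have h5 : ∀ i, ind (Sep ends F U ∧ Conn ends F v i) * x i ^ 2 =
        if Conn ends F v i then x i ^ 2 else 0 := by
      intro i
      by_cases h6 : Conn ends F v i
      · rw [ind_pos ⟨h2, h6⟩, if_pos h6, one_mul]
      · rw [ind_neg (fun h => h6 h.2), if_neg h6, zero_mul]
    simp only [h5]
    by_cases h7 : Free ends F U v
    · rw [if_pos h7, ind_pos h2, ind_pos ⟨h2, h7⟩]
      ring
    · rw [if_neg h7, ind_pos h2, ind_neg (p := Sep ends F U ∧ Free ends F U v) (fun h => h7 h.2)]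
      ring
  · have h5 : ∀ i, ind (Sep ends F U ∧ Conn ends F v i) * x i ^ 2 = 0 := by
      intro i
      rw [ind_neg (fun h => h2 h.1), zero_mul]
    have h8 : ∀ i j, ind (Pair ends F U i j ∧ True) * (x i - x j) ^ 2 =
        if Pair ends F U i j then (x i - x j) ^ 2 else 0 := by
      intro i j
      by_cases h9 : Pair ends F U i j
      · rw [ind_pos ⟨h9, trivial⟩, if_pos h9, one_mul]
      · rw [ind_neg (fun h => h9 h.1), if_neg h9, zero_mul]
    rw [gL_not_sep hx δ h2, kk, ind_neg h2, ind_neg (p := Sep ends F U ∧ Free ends F U v)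
      (fun h => h2 h.1)]
    by_cases h7 : Free ends F U v
    · have h8' : ∀ i j, ind (Pair ends F U i j ∧ Free ends F U v) *
          (x i - x j) ^ 2 = if Pair ends F U i j then (x i - x j) ^ 2 else 0 := by
        intro i j
        by_cases h9 : Pair ends F U i j
        · rw [ind_pos ⟨h9, h7⟩, if_pos h9, one_mul]
        · rw [ind_neg (fun h => h9 h.1), if_neg h9, zero_mul]
      simp only [h5, h8, h8', if_pos h7, Finset.sum_const_zero]
      ring
    · have h8' : ∀ i j, ind (Pair ends F U i j ∧ Free ends F U v) *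
          (x i - x j) ^ 2 = 0 := by
        intro i j
        rw [ind_neg (fun h => h7 h.2), zero_mul]
      simp only [h5, h8, h8', if_neg h7, Finset.sum_const_zero]
      ring

lemma QQ_eq (ends : E → Sym2 V) (S : Finset E) (U : Finset V) (P : Finset E → Prop)
    (x : V → ℝ) : QQ ends S U P x =
      ∑ F ∈ S.powerset with Forest ends F, (1 / 2 * ∑ i ∈ U, ∑ j ∈ U,
        ind (Pair ends F U i j ∧ P F) * (x i - x j) ^ 2) := by
  unfold QQ cnt
  rw [← Finset.mul_sum, Finset.sum_comm]
  congr 1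
  rw [Finset.sum_comm]
  rw [Finset.sum_comm (s := S.powerset.filter (Forest ends))]
  refine Finset.sum_congr rfl fun i _ => ?_
  rw [Finset.sum_comm]
  refine Finset.sum_congr rfl fun j _ => ?_
  rw [Finset.sum_mul]

lemma sum_gL [Fintype V] (ends : E → Sym2 V) (S : Finset E) (U : Finset V) (v : V) (δ : ℝ)
    {x : V → ℝ} (hx : ∀ w, w ∉ U → x w = 0) :
    ∑ F ∈ S.powerset with Forest ends F, gL ends U v x δ F =
      (cnt ends S (fun F => Sep ends F U) +
        δ * cnt ends S (fun F => Sep ends F U ∧ Free ends F U v)) * (∑ w, x w ^ 2) +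
      δ * (∑ i ∈ U, cnt ends S (fun F => Sep ends F U ∧ Conn ends F v i) * x i ^ 2) +
      (QQ ends S U (fun _ => True) x + δ * QQ ends S U (fun F => Free ends F U v) x) := by
  have h3 : ∑ i ∈ U, cnt ends S (fun F => Sep ends F U ∧ Conn ends F v i) * x i ^ 2 =
      ∑ F ∈ S.powerset with Forest ends F,
        ∑ i ∈ U, ind (Sep ends F U ∧ Conn ends F v i) * x i ^ 2 := by
    unfold cnt
    rw [Finset.sum_comm]
    refine Finset.sum_congr rfl fun i _ => ?_
    rw [Finset.sum_mul]
  rw [Finset.sum_congr rfl (fun F _ => gL_eq ends F U v δ hx), QQ_eq, QQ_eq, h3]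
  unfold cnt
  rw [Finset.sum_add_distrib, Finset.sum_add_distrib, Finset.sum_add_distrib, ← Finset.sum_mul,
    Finset.sum_add_distrib]
  simp only [← Finset.mul_sum]

/-- **Adding a terminal.** -/
theorem add_terminal [Fintype V] (ends : E → Sym2 V) (hloop : ∀ e, ¬ (ends e).IsDiag)
    (S : Finset E) (U : Finset V) (v : V) {x : V → ℝ} (hx : ∀ w, w ∉ U → x w = 0) :
    cnt ends S (fun F => Sep ends F U ∧ Free ends F U v) * QQ ends S U (fun _ => True) x ≤
      cnt ends S (fun F => Sep ends F U) * (QQ ends S U (fun F => Free ends F U v) x +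
        ∑ i ∈ U, cnt ends S (fun F => Sep ends F U ∧ Conn ends F v i) * x i ^ 2) := by
  have h := limit_ineq ends hloop S hx v
  rw [sum_aL, sum_aL, sum_gL ends S U v 0 hx, sum_gL ends S U v 1 hx] at h
  nlinarith

end Pool.Agent.Lib.MP_d90615_h62.KT
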