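import Pool.Agent.Lib.MP_d90615_h62.KThmA

/-!
Adding an edge at a terminal.
-/

set_option autoImplicit false

namespace Pool.Agent.Lib.MP_d90615_h62.KT

open Matrix Finset Pool.Agent.Lib.MP_d90615_co
open scoped Classical

variable {V E : Type*}

lemma cnt_insert {ends : E → Sym2 V} {S : Finset E} {e : E} {c v : V} (he : ends e = s(c, v))
    (heS : e ∉ S) (P : Finset E → Prop) :
    cnt ends (insert e S) P =
      cnt ends S P + cnt ends S (fun F => ¬ Conn ends F c v ∧ P (insert e F)) := by
  unfold cnt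
  rw [Finset.sum_filter, Finset.sum_filter, Finset.sum_filter, Finset.sum_powerset_insert heS]
  congr 1
  refine Finset.sum_congr rfl fun F hF => ?_
  have heF : e ∉ F := fun h => heS (Finset.mem_powerset.1 hF h)
  have h1 := forest_insert he heF
  by_cases h2 : Forest ends F
  · by_cases h3 : Conn ends F c v
    · rw [if_neg (fun h => (h1.1 h).2 h3), if_pos h2, ind_neg (fun h => h.1 h3)]
    · rw [if_pos (h1.2 ⟨h2, h3⟩), if_pos h2]
      congr 1
      exact propext ⟨fun h => ⟨h3, h⟩, fun h => h.2⟩
  · rw [if_neg (fun h => h2 (h1.1 h).1), if_neg h2]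

lemma cnt_mono {ends : E → Sym2 V} {S : Finset E} {P P' : Finset E → Prop}
    (h : ∀ F, F ⊆ S → Forest ends F → P F → P' F) : cnt ends S P ≤ cnt ends S P' := by
  unfold cnt
  refine Finset.sum_le_sum fun F hF => ?_
  rw [Finset.mem_filter, Finset.mem_powerset] at hF
  by_cases h1 : P F
  · rw [ind_pos h1, ind_pos (h F hF.1 hF.2 h1)]
  · rw [ind_neg h1]
    exact ind_nonneg _

lemma cnt_or {ends : E → Sym2 V} {S : Finset E} {P P' : Finset E → Prop}
    (h : ∀ F, F ⊆ S → Forest ends F → P F → ¬ P' F) :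
    cnt ends S (fun F => P F ∨ P' F) = cnt ends S P + cnt ends S P' := by
  unfold cnt
  rw [← Finset.sum_add_distrib]
  refine Finset.sum_congr rfl fun F hF => ?_
  rw [Finset.mem_filter, Finset.mem_powerset] at hF
  by_cases h1 : P F
  · rw [ind_pos h1, ind_pos (Or.inl h1), ind_neg (h F hF.1 hF.2 h1), add_zero]
  · by_cases h2 : P' F
    · rw [ind_neg h1, ind_pos h2, ind_pos (Or.inr h2), zero_add]
    · rw [ind_neg h1, ind_neg h2, ind_neg (fun h => h.elim h1 h2), add_zero]

lemma cnt_false {ends : E → Sym2 V} {S : Finset E} {P : Finset E → Prop}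
    (h : ∀ F, F ⊆ S → Forest ends F → ¬ P F) : cnt ends S P = 0 := by
  unfold cnt
  refine Finset.sum_eq_zero fun F hF => ?_
  rw [Finset.mem_filter, Finset.mem_powerset] at hF
  exact ind_neg (h F hF.1 hF.2)

section Insert

variable {ends : E → Sym2 V} {F : Finset E} {e : E} {c v : V} {U : Finset V}

lemma sep_insert (he : ends e = s(c, v)) (hc : c ∈ U) (hcv : ¬ Conn ends F c v) :
    Sep ends (insert e F) U ↔ Sep ends F U ∧ Free ends F U v := by
  constructor
  · intro h
    refine ⟨fun i hi j hj hij hij' => h i hi j hj hij ((conn_insert he i j).2 (Or.inl hij')),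
      fun i hi hvi => ?_⟩
    by_cases hic : i = c
    · subst hic
      exact hcv hvi.symm
    · exact h c hc i hi (Ne.symm hic)
        ((conn_insert he c i).2 (Or.inr (Or.inl ⟨Conn.refl _ _ _, hvi⟩)))
  · rintro ⟨h1, h2⟩ i hi j hj hij h3
    rcases (conn_insert he i j).1 h3 with h | ⟨_, h⟩ | ⟨h, _⟩
    · exact h1 i hi j hj hij h
    · exact h2 j hj h
    · exact h2 i hi h.symm

lemma pair_insert (he : ends e = s(c, v)) (hc : c ∈ U) (hcv : ¬ Conn ends F c v) {i j : V}
    (hi : i ∈ U) (hj : j ∈ U) :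
    Pair ends (insert e F) U i j ↔ (Pair ends F U i j ∧ Free ends F U v) ∨
      ((Sep ends F U ∧ Conn ends F v i ∧ j = c) ∨ (Sep ends F U ∧ Conn ends F v j ∧ i = c)) := by
  constructor
  · rintro ⟨h1, h2, h3⟩
    have hmono : ∀ {k l : V}, Conn ends F k l → Conn ends (insert e F) k l := fun h =>
      (conn_insert he _ _).2 (Or.inl h)
    have hcon : ∀ {k : V}, Conn ends F v k → Conn ends (insert e F) c k := fun h =>
      (conn_insert he _ _).2 (Or.inr (Or.inl ⟨Conn.refl _ _ _, h⟩))
    rcases (conn_insert he i j).1 h2 with h | ⟨h, h'⟩ | ⟨h, h'⟩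
    · refine Or.inl ⟨⟨h1, h, fun k hk l hl hkl hkl' => h3 k hk l hl hkl (hmono hkl')⟩, ?_⟩
      intro k hk hvk
      by_cases hkc : k = c
      · subst hkc
        exact hcv hvk.symm
      · rcases h3 c hc k hk (Ne.symm hkc) (hcon hvk) with ⟨h4, h5⟩ | ⟨h4, h5⟩
        · subst h4
          subst h5
          exact hcv (h.trans hvk.symm)
        · subst h4
          subst h5
          exact hcv (h.symm.trans hvk.symm)
    · have hic : i = c := by
        by_contra hic
        rcases h3 i hi c hc hic (hmono h) with ⟨_, h5⟩ | ⟨h4, _⟩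
        · subst h5
          exact hcv h'.symm
        · exact h1 h4
      refine Or.inr (Or.inr ⟨?_, h', hic⟩)
      intro k hk l hl hkl hkl'
      rcases h3 k hk l hl hkl (hmono hkl') with ⟨h4, h5⟩ | ⟨h4, h5⟩
      · subst h4
        subst h5
        subst hic
        exact hcv (hkl'.trans h'.symm)
      · subst h4
        subst h5
        subst hic
        exact hcv (hkl'.symm.trans h'.symm)
    · have hjc : j = c := by
        by_contra hjc
        rcases h3 j hj c hc hjc (hmono h'.symm) with ⟨h4, _⟩ | ⟨_, h5⟩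
        · exact h1 h4.symm
        · subst h5
          exact hcv h
      refine Or.inr (Or.inl ⟨?_, h.symm, hjc⟩)
      intro k hk l hl hkl hkl'
      rcases h3 k hk l hl hkl (hmono hkl') with ⟨h4, h5⟩ | ⟨h4, h5⟩
      · subst h4
        subst h5
        subst hjc
        exact hcv (hkl'.symm.trans h)
      · subst h4
        subst h5
        subst hjc
        exact hcv (hkl'.trans h)
  · have key : Sep ends F U → ∀ m ∈ U, Conn ends F v m → Pair ends (insert e F) U c m := by
      intro hs m hm hvm
      refine ⟨fun h => ?_, (conn_insert he _ _).2 (Or.inr (Or.inl ⟨Conn.refl _ _ _, hvm⟩)), ?_⟩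
      · subst h
        exact hcv hvm.symm
      · intro k hk l hl hkl hkl'
        rcases (conn_insert he k l).1 hkl' with h | ⟨h, h'⟩ | ⟨h, h'⟩
        · exact absurd h (hs k hk l hl hkl)
        · left
          constructor
          · by_contra h4
            exact hs k hk c hc h4 h
          · by_contra h4
            exact hs l hl m hm h4 (h'.symm.trans hvm)
        · right
          constructor
          · by_contra h4
            exact hs k hk m hm h4 (h.trans hvm)
          · by_contra h4
            exact hs l hl c hc h4 h'.symm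
    rintro (⟨⟨h1, h2, h3⟩, h4⟩ | ⟨h1, h2, rfl⟩ | ⟨h1, h2, rfl⟩)
    · refine ⟨h1, (conn_insert he _ _).2 (Or.inl h2), fun k hk l hl hkl hkl' => ?_⟩
      rcases (conn_insert he k l).1 hkl' with h | ⟨_, h⟩ | ⟨h, _⟩
      · exact h3 k hk l hl hkl h
      · exact absurd h (h4 l hl)
      · exact absurd h.symm (h4 k hk)
    · obtain ⟨a, b, d⟩ := key h1 i hi h2
      exact ⟨a.symm, b.symm, fun k hk l hl hkl h => (d k hk l hl hkl h).symm⟩
    · exact key h1 j hj h2

end Insert

lemma cnt_sep_insert {ends : E → Sym2 V} {S : Finset E} {e : E} {c v : V} {U : Finset V}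
    (he : ends e = s(c, v)) (heS : e ∉ S) (hc : c ∈ U) :
    cnt ends (insert e S) (fun F => Sep ends F U) = cnt ends S (fun F => Sep ends F U) +
      cnt ends S (fun F => Sep ends F U ∧ Free ends F U v) := by
  rw [cnt_insert he heS]
  congr 1
  refine cnt_congr fun F _ _ => ?_
  constructor
  · rintro ⟨h1, h2⟩
    exact (sep_insert he hc h1).1 h2
  · intro h
    have h1 : ¬ Conn ends F c v := fun h2 => h.2 c hc h2.symm
    exact ⟨h1, (sep_insert he hc h1).2 h⟩

lemma QQ_insert {ends : E → Sym2 V} {S : Finset E} {e : E} {c v : V} {U : Finset V}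
    (he : ends e = s(c, v)) (heS : e ∉ S) (hc : c ∈ U) (x : V → ℝ) :
    QQ ends (insert e S) U (fun _ => True) x = QQ ends S U (fun _ => True) x +
      (QQ ends S U (fun F => Free ends F U v) x +
        ∑ i ∈ U, cnt ends S (fun F => Sep ends F U ∧ Conn ends F v i) * (x i - x c) ^ 2) := by
  obtain ⟨Y, hY⟩ : ∃ Y : V → ℝ, Y = fun i =>
    cnt ends S (fun F => Sep ends F U ∧ Conn ends F v i) := ⟨_, rfl⟩
  have h1 : ∀ i ∈ U, ∀ j ∈ U, cnt ends (insert e S) (fun F => Pair ends F U i j ∧ True) *
      (x i - x j) ^ 2 = cnt ends S (fun F => Pair ends F U i j ∧ True) * (x i - x j) ^ 2 +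
        (cnt ends S (fun F => Pair ends F U i j ∧ Free ends F U v) * (x i - x j) ^ 2 +
          ((if j = c then Y i * (x i - x c) ^ 2 else 0) +
            (if i = c then Y j * (x j - x c) ^ 2 else 0))) := by
    intro i hi j hj
    by_cases hij : i = j
    · subst hij
      by_cases hic : i = c
      · subst hic
        simp
      · simp [hic]
    rw [cnt_insert he heS, add_mul]
    congr 1
    have h2 : cnt ends S (fun F => ¬ Conn ends F c v ∧ Pair ends (insert e F) U i j ∧ True) =
        cnt ends S (fun F => Pair ends F U i j ∧ Free ends F U v) +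
          (cnt ends S (fun F => (Sep ends F U ∧ Conn ends F v i) ∧ j = c) +
            cnt ends S (fun F => (Sep ends F U ∧ Conn ends F v j) ∧ i = c)) := by
      rw [← cnt_or, ← cnt_or]
      · refine cnt_congr fun F _ _ => ?_
        constructor
        · rintro ⟨h3, h4, _⟩
          rcases (pair_insert he hc h3 hi hj).1 h4 with h | ⟨h5, h6, h7⟩ | ⟨h5, h6, h7⟩
          · exact Or.inl h
          · exact Or.inr (Or.inl ⟨⟨h5, h6⟩, h7⟩)
          · exact Or.inr (Or.inr ⟨⟨h5, h6⟩, h7⟩)
        · rintro (h | ⟨⟨h5, h6⟩, h7⟩ | ⟨⟨h5, h6⟩, h7⟩)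
          · have h3 : ¬ Conn ends F c v := fun h4 => h.2 c hc h4.symm
            exact ⟨h3, (pair_insert he hc h3 hi hj).2 (Or.inl h), trivial⟩
          · have h3 : ¬ Conn ends F c v := fun h4 => by
              subst h7
              exact h5 i hi j hj hij (h6.symm.trans h4.symm)
            exact ⟨h3, (pair_insert he hc h3 hi hj).2 (Or.inr (Or.inl ⟨h5, h6, h7⟩)), trivial⟩
          · have h3 : ¬ Conn ends F c v := fun h4 => by
              subst h7
              exact h5 i hi j hj hij (h4.trans h6)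
            exact ⟨h3, (pair_insert he hc h3 hi hj).2 (Or.inr (Or.inr ⟨h5, h6, h7⟩)), trivial⟩
      · rintro F _ _ ⟨_, h3⟩ (⟨⟨_, h4⟩, _⟩ | ⟨⟨_, h4⟩, _⟩)
        · exact h3 i hi h4
        · exact h3 j hj h4
      · rintro F _ _ ⟨_, h3⟩ ⟨_, h4⟩
        exact hij (h4.trans h3.symm)
    rw [h2, add_mul, add_mul]
    congr 1
    congr 1
    · by_cases hjc : j = c
      · subst hjc
        rw [if_pos rfl, hY]
        congr 1
        exact cnt_congr fun F _ _ => ⟨fun h => h.1, fun h => ⟨h, rfl⟩⟩
      · rw [if_neg hjc, cnt_false (fun F _ _ h => hjc h.2), zero_mul]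
    · by_cases hic : i = c
      · subst hic
        rw [if_pos rfl, hY]
        have h5 : (x i - x j) ^ 2 = (x j - x i) ^ 2 := by ring
        rw [h5]
        congr 1
        exact cnt_congr fun F _ _ => ⟨fun h => h.1, fun h => ⟨h, rfl⟩⟩
      · rw [if_neg hic, cnt_false (fun F _ _ h => hic h.2), zero_mul]
  have h3 : ∑ i ∈ U, ∑ j ∈ U, (if j = c then Y i * (x i - x c) ^ 2 else 0) =
      ∑ i ∈ U, Y i * (x i - x c) ^ 2 := by
    refine Finset.sum_congr rfl fun i _ => ?_
    rw [Finset.sum_ite_eq', if_pos hc]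
  have h4 : ∑ i ∈ U, ∑ j ∈ U, (if i = c then Y j * (x j - x c) ^ 2 else 0) =
      ∑ i ∈ U, Y i * (x i - x c) ^ 2 := by
    rw [Finset.sum_comm]
    refine Finset.sum_congr rfl fun i _ => ?_
    rw [Finset.sum_ite_eq', if_pos hc]
  have h5 : ∑ i ∈ U, cnt ends S (fun F => Sep ends F U ∧ Conn ends F v i) * (x i - x c) ^ 2 =
      ∑ i ∈ U, Y i * (x i - x c) ^ 2 := by rw [hY]
  rw [h5]
  unfold QQ
  rw [Finset.sum_congr rfl (fun i hi => Finset.sum_congr rfl (fun j hj => h1 i hi j hj))]
  simp only [Finset.sum_add_distrib]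
  rw [h3, h4]
  ring

lemma QQ_shift (ends : E → Sym2 V) (S : Finset E) (U : Finset V) (P : Finset E → Prop)
    (x : V → ℝ) (c : V) :
    QQ ends S U P (fun w => if w ∈ U then x w - x c else 0) = QQ ends S U P x := by
  unfold QQ
  congr 1
  refine Finset.sum_congr rfl fun i hi => Finset.sum_congr rfl fun j hj => ?_
  simp only [if_pos hi, if_pos hj]
  congr 1
  ring

/-- **Adding an edge at a terminal increases the response matrix (Loewner order).** -/
theorem add_edge [Fintype V] (ends : E → Sym2 V) (hloop : ∀ e, ¬ (ends e).IsDiag)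
    {S : Finset E} {U : Finset V} {e : E} {c v : V} (he : ends e = s(c, v)) (heS : e ∉ S)
    (hc : c ∈ U) (x : V → ℝ) :
    cnt ends (insert e S) (fun F => Sep ends F U) * QQ ends S U (fun _ => True) x ≤
      cnt ends S (fun F => Sep ends F U) * QQ ends (insert e S) U (fun _ => True) x := by
  have h := add_terminal ends hloop S U v (x := fun w => if w ∈ U then x w - x c else 0)
    (fun w hw => if_neg hw)
  rw [QQ_shift, QQ_shift] at h
  have h1 : ∑ i ∈ U, cnt ends S (fun F => Sep ends F U ∧ Conn ends F v i) *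
      (if i ∈ U then x i - x c else 0) ^ 2 =
      ∑ i ∈ U, cnt ends S (fun F => Sep ends F U ∧ Conn ends F v i) * (x i - x c) ^ 2 :=
    Finset.sum_congr rfl fun i hi => by rw [if_pos hi]
  rw [h1] at h
  rw [cnt_sep_insert he heS hc, QQ_insert he heS hc]
  nlinarith

end Pool.Agent.Lib.MP_d90615_h62.KT
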