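import Pool.Agent.Lib.MP_d90615_h62.KCon

/-!
Three terminals: `#(abc) #(a|b|c) ≥ #(bc|a) #(ac|b) + #(ac|b) #(ab|c) + #(ab|c) #(bc|a)`.
-/

set_option autoImplicit false

namespace Pool.Agent.Lib.MP_d90615_h62.KT

open Matrix Finset Pool.Agent.Lib.MP_d90615_co
open scoped Classical

variable {V E : Type*}

lemma sep_congr {ends ends' : E → Sym2 V} {F : Finset E} (h : ∀ f ∈ F, ends f = ends' f)
    {U : Finset V} : Sep ends F U ↔ Sep ends' F U := by
  unfold Sep
  simp only [conn_congr h]

lemma pair_congr {ends ends' : E → Sym2 V} {F : Finset E} (h : ∀ f ∈ F, ends f = ends' f)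
    {U : Finset V} {i j : V} : Pair ends F U i j ↔ Pair ends' F U i j := by
  unfold Pair
  simp only [conn_congr h]

/-- **Adding an edge at a terminal increases the response matrix (Loewner order).** -/
theorem add_edge' [Fintype V] (ends : E → Sym2 V) {S : Finset E} {U : Finset V} {e : E}
    {c v : V} (he : ends e = s(c, v)) (hcv : c ≠ v) (heS : e ∉ S) (hc : c ∈ U) (x : V → ℝ) :
    cnt ends (insert e S) (fun F => Sep ends F U) * QQ ends S U (fun _ => True) x ≤
      cnt ends S (fun F => Sep ends F U) * QQ ends (insert e S) U (fun _ => True) x := by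
  obtain ⟨ends', hends'⟩ : ∃ ends' : E → Sym2 V, ends' =
    fun f => if (ends f).IsDiag then s(c, v) else ends f := ⟨_, rfl⟩
  have hnd : ¬ (s(c, v) : Sym2 V).IsDiag := by
    rw [Sym2.mk_isDiag_iff]
    exact hcv
  have hloop : ∀ f, ¬ (ends' f).IsDiag := by
    intro f
    rw [hends']
    by_cases h : (ends f).IsDiag
    · simp only [if_pos h]
      exact hnd
    · simp only [if_neg h]
      exact h
  have hne : ∀ f, ¬ (ends f).IsDiag → ends f = ends' f := by
    intro f h
    rw [hends']
    simp only [if_neg h]
  have hT : ∀ S : Finset E, cnt ends S (fun F => Sep ends F U) =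
      cnt ends' (S.filter fun f => ¬ (ends f).IsDiag) (fun F => Sep ends' F U) :=
    fun S => cnt_noloop S hne fun F _ h => sep_congr h
  have hQ : ∀ S : Finset E, QQ ends S U (fun _ => True) x =
      QQ ends' (S.filter fun f => ¬ (ends f).IsDiag) U (fun _ => True) x := by
    intro S
    unfold QQ
    congr 1
    refine Finset.sum_congr rfl fun i _ => Finset.sum_congr rfl fun j _ => ?_
    congr 1
    exact cnt_noloop S hne fun F _ h => and_congr_left' (pair_congr h)
  have hins : (insert e S).filter (fun f => ¬ (ends f).IsDiag) =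
      insert e (S.filter fun f => ¬ (ends f).IsDiag) := by
    rw [Finset.filter_insert, if_pos (by rw [he]; exact hnd)]
  rw [hT, hT, hQ, hQ, hins]
  refine add_edge ends' hloop (by rw [← hne e (by rw [he]; exact hnd), he]) ?_ hc x
  intro h
  exact heS (Finset.mem_filter.1 h).1

/-- the number of forests in which `a`, `b`, `c` are separated -/
noncomputable def nT (ends : E → Sym2 V) (S : Finset E) (a b c : V) : ℝ :=
  cnt ends S (fun F => ¬ Conn ends F a b ∧ ¬ Conn ends F b c ∧ ¬ Conn ends F a c)

/-- the number of forests in which `a`, `b`, `c` are joined -/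
noncomputable def nS (ends : E → Sym2 V) (S : Finset E) (a b c : V) : ℝ :=
  cnt ends S (fun F => Conn ends F a b ∧ Conn ends F b c)

/-- the number of forests in which `b`, `c` are joined, and `a` is not joined to them -/
noncomputable def n1 (ends : E → Sym2 V) (S : Finset E) (a b c : V) : ℝ :=
  cnt ends S (fun F => Conn ends F b c ∧ ¬ Conn ends F a b)

lemma sep_three {ends : E → Sym2 V} {F : Finset E} {a b c : V} (hab : a ≠ b) (hbc : b ≠ c)
    (hac : a ≠ c) : Sep ends F {a, b, c} ↔
      ¬ Conn ends F a b ∧ ¬ Conn ends F b c ∧ ¬ Conn ends F a c := by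
  constructor
  · intro h
    exact ⟨h a (by simp) b (by simp) hab, h b (by simp) c (by simp) hbc,
      h a (by simp) c (by simp) hac⟩
  · rintro ⟨h1, h2, h3⟩ i hi j hj hij hc
    simp only [Finset.mem_insert, Finset.mem_singleton] at hi hj
    rcases hi with rfl | rfl | rfl <;> rcases hj with rfl | rfl | rfl
    · exact hij rfl
    · exact h1 hc
    · exact h3 hc
    · exact h1 hc.symm
    · exact hij rfl
    · exact h2 hc
    · exact h3 hc.symm
    · exact h2 hc.symm
    · exact hij rfl

lemma pair_three {ends : E → Sym2 V} {F : Finset E} {U : Finset V} {p q r : V}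
    (hU : ∀ w, w ∈ U ↔ w = p ∨ w = q ∨ w = r) (hpq : p ≠ q) (hqr : q ≠ r) (hpr : p ≠ r) :
    Pair ends F U q r ↔ Conn ends F q r ∧ ¬ Conn ends F p q := by
  constructor
  · rintro ⟨_, h2, h3⟩
    refine ⟨h2, fun h => ?_⟩
    rcases h3 p ((hU p).2 (Or.inl rfl)) q ((hU q).2 (Or.inr (Or.inl rfl))) hpq h with
      ⟨h4, _⟩ | ⟨h4, _⟩
    · exact hpq h4
    · exact hpr h4
  · rintro ⟨h1, h2⟩
    refine ⟨hqr, h1, fun k hk l hl hkl hc => ?_⟩
    rcases (hU k).1 hk with rfl | rfl | rfl <;> rcases (hU l).1 hl with rfl | rfl | rfl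
    · exact absurd rfl hkl
    · exact absurd hc h2
    · exact absurd (hc.trans h1.symm) h2
    · exact absurd hc.symm h2
    · exact absurd rfl hkl
    · exact Or.inl ⟨rfl, rfl⟩
    · exact absurd (hc.symm.trans h1.symm) h2
    · exact Or.inr ⟨rfl, rfl⟩
    · exact absurd rfl hkl

lemma QQ_three (ends : E → Sym2 V) (S : Finset E) {a b c : V} (hab : a ≠ b) (hbc : b ≠ c)
    (hac : a ≠ c) (x : V → ℝ) : QQ ends S {a, b, c} (fun _ => True) x =
      n1 ends S a b c * (x b - x c) ^ 2 + n1 ends S b a c * (x a - x c) ^ 2 +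
        n1 ends S c a b * (x a - x b) ^ 2 := by
  have h1 : ∀ p q r : V, (∀ w, w ∈ ({a, b, c} : Finset V) ↔ w = p ∨ w = q ∨ w = r) →
      p ≠ q → q ≠ r → p ≠ r →
      cnt ends S (fun F => Pair ends F {a, b, c} q r ∧ True) = n1 ends S p q r := by
    intro p q r hU hpq hqr hpr
    refine cnt_congr fun F _ _ => ?_
    rw [pair_three hU hpq hqr hpr]
    exact and_iff_left trivial
  have h2 : ∀ p q r : V, n1 ends S p q r = n1 ends S p r q := by
    intro p q r
    refine cnt_congr fun F _ _ => ?_
    constructor
    · rintro ⟨h3, h4⟩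
      exact ⟨h3.symm, fun h5 => h4 (h5.trans h3.symm)⟩
    · rintro ⟨h3, h4⟩
      exact ⟨h3.symm, fun h5 => h4 (h5.trans h3.symm)⟩
  have hsum : ∀ f : V → ℝ, ∑ i ∈ ({a, b, c} : Finset V), f i = f a + (f b + f c) := by
    intro f
    rw [Finset.sum_insert (by simp [hab, hac]), Finset.sum_insert (by simp [hbc]),
      Finset.sum_singleton]
  unfold QQ
  simp only [hsum]
  rw [h1 c a b (by intro w; simp; tauto) hac.symm hab hbc.symm,
    h1 b a c (by intro w; simp; tauto) hab.symm hac hbc,
    h1 c b a (by intro w; simp; tauto) hbc.symm hab.symm hac.symm,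
    h1 a b c (by intro w; simp) hab hbc hac,
    h1 b c a (by intro w; simp; tauto) hbc hac.symm hab.symm,
    h1 a c b (by intro w; simp; tauto) hac hbc.symm hab,
    h2 c b a, h2 b c a, h2 a c b]
  ring

lemma e2_of_form {p q r : ℝ}
    (h : ∀ x y : ℝ, 0 ≤ p * y ^ 2 + q * x ^ 2 + r * (x - y) ^ 2) :
    0 ≤ p * q + q * r + r * p := by
  have h1 := h 1 0
  have h2 := h 0 1
  have h3 := h r (q + r)
  have h4 : 0 ≤ q + r := by nlinarith
  rcases h4.eq_or_lt with h5 | h5
  · by_cases h6 : r = 0
    · have h7 : q = 0 := by linarith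
      rw [h6, h7]
      simp
    · exfalso
      have h8 := h ((p + r + 1) / (2 * r)) 1
      have h9 : q = -r := by linarith
      rw [h9] at h8
      have h10 : p * 1 ^ 2 + -r * ((p + r + 1) / (2 * r)) ^ 2 +
          r * ((p + r + 1) / (2 * r) - 1) ^ 2 = -1 := by
        field_simp
        ring
      linarith
  · have h6 : p * (q + r) ^ 2 + q * r ^ 2 + r * (r - (q + r)) ^ 2 =
        (q + r) * (p * q + q * r + r * p) := by ring
    rw [h6] at h3
    exact nonneg_of_mul_nonneg_right h3 h5

lemma kappa_algebra {T T' s s' a a' b b' c c' : ℝ} (hT : 0 < T) (hT' : 0 < T')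
    (h : a * b + b * c + c * a ≤ s * T) (h' : a' * b' + b' * c' + c' * a' ≤ s' * T')
    (he : 0 ≤ (T * a' - T' * a) * (T * b' - T' * b) + (T * b' - T' * b) * (T * c' - T' * c) +
      (T * c' - T' * c) * (T * a' - T' * a)) :
    (a + a') * (b + b') + (b + b') * (c + c') + (c + c') * (a + a') ≤ (s + s') * (T + T') := by
  have h1 : 0 ≤ T * T' * ((s + s') * (T + T') -
      ((a + a') * (b + b') + (b + b') * (c + c') + (c + c') * (a + a'))) := by
    have h2 : T * T' * ((s + s') * (T + T') -
      ((a + a') * (b + b') + (b + b') * (c + c') + (c + c') * (a + a'))) =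
        (T * T' + T' ^ 2) * (s * T - (a * b + b * c + c * a)) +
        (T * T' + T ^ 2) * (s' * T' - (a' * b' + b' * c' + c' * a')) +
        ((T * a' - T' * a) * (T * b' - T' * b) + (T * b' - T' * b) * (T * c' - T' * c) +
          (T * c' - T' * c) * (T * a' - T' * a)) := by ring
    rw [h2]
    have h3 : 0 ≤ (T * T' + T' ^ 2) * (s * T - (a * b + b * c + c * a)) :=
      mul_nonneg (by positivity) (by linarith)
    have h4 : 0 ≤ (T * T' + T ^ 2) * (s' * T' - (a' * b' + b' * c' + c' * a')) :=
      mul_nonneg (by positivity) (by linarith)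
    linarith
  have h2 := nonneg_of_mul_nonneg_right h1 (mul_pos hT hT')
  linarith

lemma cnt_pos {ends : E → Sym2 V} {S : Finset E} {P : Finset E → Prop} (h : P ∅) :
    0 < cnt ends S P := by
  unfold cnt
  have h1 : (∅ : Finset E) ∈ S.powerset.filter (fun F => Forest ends F) := by
    rw [Finset.mem_filter, Finset.mem_powerset]
    exact ⟨Finset.empty_subset _, fun e he => absurd he (Finset.notMem_empty e)⟩
  have h2 := Finset.single_le_sum (f := fun F => ind (P F)) (fun F _ => ind_nonneg _) h1
  simp only [ind_pos h] at h2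
  linarith

lemma nT_pos (ends : E → Sym2 V) (S : Finset E) {a b c : V} (hab : a ≠ b) (hbc : b ≠ c)
    (hac : a ≠ c) : 0 < nT ends S a b c :=
  cnt_pos ⟨fun h => hab (conn_empty h), fun h => hbc (conn_empty h),
    fun h => hac (conn_empty h)⟩

lemma conn_of_isolated {ends : E → Sym2 V} {F : Finset E} {c j : V} (h : ∀ f ∈ F, c ∉ ends f)
    (hc : Conn ends F c j) : c = j := by
  induction hc with
  | refl => rfl
  | tail _ hbc ih =>
    obtain ⟨f, hf, hs⟩ := hbc
    exfalso
    apply h f hf
    rw [hs, ← ih]
    exact Sym2.mem_mk_left _ _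

/-- the statement -/
def Kap (ends : E → Sym2 V) (S : Finset E) (a b c : V) : Prop :=
  n1 ends S a b c * n1 ends S b a c + n1 ends S b a c * n1 ends S c a b +
    n1 ends S c a b * n1 ends S a b c ≤ nS ends S a b c * nT ends S a b c

lemma Kap.swap {ends : E → Sym2 V} {S : Finset E} {a b c : V} (h : Kap ends S a b c) :
    Kap ends S b a c := by
  have h1 : nT ends S b a c = nT ends S a b c := cnt_congr fun F _ _ =>
    ⟨fun ⟨h1, h2, h3⟩ => ⟨fun h => h1 h.symm, h3, h2⟩,
      fun ⟨h1, h2, h3⟩ => ⟨fun h => h1 h.symm, h3, h2⟩⟩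
  have h2 : nS ends S b a c = nS ends S a b c := cnt_congr fun F _ _ =>
    ⟨fun ⟨h1, h2⟩ => ⟨h1.symm, h1.trans h2⟩, fun ⟨h1, h2⟩ => ⟨h1.symm, h1.trans h2⟩⟩
  have h3 : n1 ends S c b a = n1 ends S c a b := cnt_congr fun F _ _ =>
    ⟨fun ⟨h1, h2⟩ => ⟨h1.symm, fun h => h2 (h.trans h1.symm)⟩,
      fun ⟨h1, h2⟩ => ⟨h1.symm, fun h => h2 (h.trans h1.symm)⟩⟩
  unfold Kap at *
  rw [h1, h2, h3]
  linarith

/-- an edge between two terminals does not change the defect -/
lemma kap_terminal {ends : E → Sym2 V} {S : Finset E} {a b c : V} {e : E}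
    (he : ends e = s(c, a)) (heS : e ∉ S) (h : Kap ends S a b c) :
    Kap ends (insert e S) a b c := by
  have hca : ∀ F : Finset E, Conn ends (insert e F) c a := fun F =>
    Conn.single (Finset.mem_insert_self _ _) he
  have hmono : ∀ {F : Finset E} {k l : V}, Conn ends F k l → Conn ends (insert e F) k l :=
    fun h => h.mono (Finset.subset_insert _ _)
  have hT : nT ends (insert e S) a b c = nT ends S a b c := by
    unfold nT
    rw [cnt_insert he heS, cnt_false (P := fun F => ¬ Conn ends F c a ∧ _) ?_, add_zero]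
    rintro F _ _ ⟨_, _, _, h1⟩
    exact h1 (hca F).symm
  have hA : n1 ends (insert e S) a b c = n1 ends S a b c := by
    unfold n1
    rw [cnt_insert he heS, cnt_false (P := fun F => ¬ Conn ends F c a ∧ _) ?_, add_zero]
    rintro F _ _ ⟨_, h1, h2⟩
    exact h2 ((hca F).symm.trans h1.symm)
  have hC : n1 ends (insert e S) c a b = n1 ends S c a b := by
    unfold n1
    rw [cnt_insert he heS, cnt_false (P := fun F => ¬ Conn ends F c a ∧ _) ?_, add_zero]
    rintro F _ _ ⟨_, h1, h2⟩
    exact h2 (hca F)
  have hB : n1 ends (insert e S) b a c = n1 ends S b a c + nT ends S a b c := by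
    unfold n1 nT
    rw [cnt_insert he heS]
    congr 1
    refine cnt_congr fun F _ _ => ?_
    constructor
    · rintro ⟨h1, h2, h3⟩
      exact ⟨fun h4 => h3 (hmono h4.symm), fun h4 => h3 ((hmono h4).trans (hca F)),
        fun h4 => h1 h4.symm⟩
    · rintro ⟨h1, h2, h3⟩
      refine ⟨fun h4 => h3 h4.symm, (hca F).symm, fun h4 => ?_⟩
      rcases (conn_insert he b a).1 h4 with h5 | ⟨h5, _⟩ | ⟨h5, _⟩
      · exact h1 h5.symm
      · exact h2 h5
      · exact h1 h5.symm
  have hS : nS ends (insert e S) a b c = nS ends S a b c + (n1 ends S c a b + n1 ends S a b c) := by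
    unfold nS n1
    rw [cnt_insert he heS]
    congr 1
    rw [← cnt_or]
    · refine cnt_congr fun F _ _ => ?_
      constructor
      · rintro ⟨h1, h2, _⟩
        rcases (conn_insert he a b).1 h2 with h5 | ⟨h5, h6⟩ | ⟨h5, h6⟩
        · exact Or.inl ⟨h5, h1⟩
        · exact Or.inl ⟨h6, h1⟩
        · exact Or.inr ⟨h6.symm, fun h7 => h1 (h6.trans h7.symm)⟩
      · rintro (⟨h1, h2⟩ | ⟨h1, h2⟩)
        · exact ⟨h2, hmono h1, (hmono h1.symm).trans (hca F).symm⟩
        · exact ⟨fun h3 => h2 (h3.symm.trans h1.symm), (hca F).symm.trans (hmono h1.symm),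
            hmono h1⟩
    · rintro F _ _ ⟨h1, h2⟩ ⟨h3, h4⟩
      exact h4 h1
  unfold Kap at *
  rw [hT, hA, hB, hC, hS]
  nlinarith

/-- **Three terminals.** -/
theorem kappa [Fintype V] : ∀ (n : ℕ) (ends : E → Sym2 V) (S : Finset E), S.card = n →
    ∀ a b c : V, a ≠ b → b ≠ c → a ≠ c → Kap ends S a b c := by
  intro n
  induction n with
  | zero =>
    intro ends S hS a b c hab hbc hac
    have h1 : S = ∅ := Finset.card_eq_zero.1 hS
    subst h1
    have h2 : ∀ (P : Finset E → Prop), ¬ P ∅ → cnt ends ∅ P = 0 := by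
      intro P hP
      refine cnt_false fun F hF _ hPF => hP ?_
      rwa [Finset.subset_empty.1 hF] at hPF
    have h3 : n1 ends ∅ a b c = 0 := h2 _ fun h => hbc (conn_empty h.1)
    have h4 : n1 ends ∅ b a c = 0 := h2 _ fun h => hac (conn_empty h.1)
    have h5 : nS ends ∅ a b c = 0 := h2 _ fun h => hbc (conn_empty h.2)
    unfold Kap
    rw [h3, h4, h5]
    simp
  | succ n ih =>
    intro ends S hS a b c hab hbc hac
    by_cases hex : ∃ f ∈ S, c ∈ ends f
    · obtain ⟨e, heS, hce⟩ := hex
      obtain ⟨v, hv⟩ := Sym2.mem_iff_exists.1 hce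
      obtain ⟨S', hS', heS'⟩ : ∃ S', S = insert e S' ∧ e ∉ S' :=
        ⟨S.erase e, (Finset.insert_erase heS).symm, Finset.notMem_erase _ _⟩
      have hn : S'.card = n := by
        rw [hS', Finset.card_insert_of_notMem heS'] at hS
        omega
      have hI : ∀ ends' : E → Sym2 V, Kap ends' S' a b c := fun ends' =>
        ih ends' S' hn a b c hab hbc hac
      rw [hS']
      by_cases hcv : c = v
      · subst hcv
        have h1 : ∀ P : Finset E → Prop, cnt ends (insert e S') P = cnt ends S' P := by
          intro P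
          rw [cnt_insert hv heS', cnt_false (P := fun F => ¬ Conn ends F c c ∧ _) ?_, add_zero]
          rintro F _ _ ⟨h2, _⟩
          exact h2 (Conn.refl _ _ _)
        have h2 := hI ends
        unfold Kap n1 nS nT at *
        rw [h1, h1, h1, h1, h1]
        exact h2
      · by_cases hva : v = a
        · subst hva
          exact kap_terminal hv heS' (hI ends)
        · by_cases hvb : v = b
          · subst hvb
            exact (kap_terminal hv heS' (hI ends).swap).swap
          · -- contraction
            have hcc : ∀ (F : Finset E) (i j : V), i ≠ v → j ≠ v →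
                (Conn ends (insert e F) i j ↔ Conn (con ends c v) F i j) := by
              intro F i j hi hj
              rw [← conn_con hv, gl_of_ne hi, gl_of_ne hj]
            have hav : a ≠ v := Ne.symm hva
            have hbv : b ≠ v := Ne.symm hvb
            have hT : nT ends (insert e S') a b c = nT ends S' a b c +
                nT (con ends c v) S' a b c := cnt_del_con hv hcv heS' fun F _ => by
              rw [hcc F a b hav hbv, hcc F b c hbv hcv, hcc F a c hav hcv]
            have hS1 : nS ends (insert e S') a b c = nS ends S' a b c +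
                nS (con ends c v) S' a b c := cnt_del_con hv hcv heS' fun F _ => by
              rw [hcc F a b hav hbv, hcc F b c hbv hcv]
            have hA : n1 ends (insert e S') a b c = n1 ends S' a b c +
                n1 (con ends c v) S' a b c := cnt_del_con hv hcv heS' fun F _ => by
              rw [hcc F a b hav hbv, hcc F b c hbv hcv]
            have hB : n1 ends (insert e S') b a c = n1 ends S' b a c +
                n1 (con ends c v) S' b a c := cnt_del_con hv hcv heS' fun F _ => by
              rw [hcc F b a hbv hav, hcc F a c hav hcv]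
            have hC : n1 ends (insert e S') c a b = n1 ends S' c a b +
                n1 (con ends c v) S' c a b := cnt_del_con hv hcv heS' fun F _ => by
              rw [hcc F a b hav hbv, hcc F c a hcv hav]
            have hform : ∀ x y : ℝ, 0 ≤
                (nT ends S' a b c * n1 (con ends c v) S' a b c -
                  nT (con ends c v) S' a b c * n1 ends S' a b c) * y ^ 2 +
                (nT ends S' a b c * n1 (con ends c v) S' b a c -
                  nT (con ends c v) S' a b c * n1 ends S' b a c) * x ^ 2 +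
                (nT ends S' a b c * n1 (con ends c v) S' c a b -
                  nT (con ends c v) S' a b c * n1 ends S' c a b) * (x - y) ^ 2 := by
              intro x y
              have h1 := add_edge' ends hv hcv heS' (U := {a, b, c}) (by simp)
                (fun w => if w = a then x else if w = b then y else 0)
              rw [QQ_three ends S' hab hbc hac, QQ_three ends (insert e S') hab hbc hac] at h1
              have h2 : ∀ S : Finset E, cnt ends S (fun F => Sep ends F {a, b, c}) =
                  nT ends S a b c := fun S => cnt_congr fun F _ _ => sep_three hab hbc hac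
              rw [h2, h2, hT, hA, hB, hC] at h1
              simp only [↓reduceIte, if_neg hab.symm, if_neg hac.symm, if_neg hbc.symm,
                sub_zero] at h1
              nlinarith
            have he2 := e2_of_form hform
            unfold Kap
            rw [hT, hS1, hA, hB, hC]
            exact kappa_algebra (nT_pos ends S' hab hbc hac) (nT_pos (con ends c v) S' hab hbc hac)
              (hI ends) (hI (con ends c v)) he2
    · push Not at hex
      have h1 : ∀ F, F ⊆ S → ∀ j, Conn ends F c j → c = j := fun F hF j hj =>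
        conn_of_isolated (fun f hf => hex f (hF hf)) hj
      have h3 : n1 ends S a b c = 0 := cnt_false fun F hF _ h => hbc (h1 F hF b h.1.symm).symm
      have h4 : n1 ends S b a c = 0 := cnt_false fun F hF _ h => hac (h1 F hF a h.1.symm).symm
      have h5 : nS ends S a b c = 0 := cnt_false fun F hF _ h => hbc (h1 F hF b h.2.symm).symm
      unfold Kap
      rw [h3, h4, h5]
      simp

/-- **Three terminals.** -/
theorem three_terminals [Fintype V] (ends : E → Sym2 V) (S : Finset E) {a b c : V}
    (hab : a ≠ b) (hbc : b ≠ c) (hac : a ≠ c) :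
    n1 ends S a b c * n1 ends S b a c + n1 ends S b a c * n1 ends S c a b +
      n1 ends S c a b * n1 ends S a b c ≤ nS ends S a b c * nT ends S a b c :=
  kappa S.card ends S rfl a b c hab hbc hac

end Pool.Agent.Lib.MP_d90615_h62.KT
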